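import Pool.Agent.Helper36.Swap.Spec

/-!
# The weighted estimate

A function `f` on the sets of size `R` in a set with `2 R` elements which is annihilated by the down
operator, and a function `d` on its support which changes by at most one at an exchange: if no set
of the support has together with its complement `d < T`, then `f` decays like `q ^ d`,
`q = R / (R + 1)`.
-/

set_option autoImplicit false

namespace Pool.Agent.Helper36.Swap

open Finset

variable {E : Type*} [Fintype E] [DecidableEq E]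

theorem phi_diff {R : ℝ} (hR : 0 < R) {q : ℝ} (hq : q = R / (R + 1)) {d d' : ℕ} (h : d ≤ d' + 1)
    (h' : d' ≤ d + 1) : (q ^ d - q ^ d') ^ 2 ≤ q ^ (2 * d) / R ^ 2 := by
  have hq0 : 0 < q := by rw [hq]; positivity
  have e1 : 1 - q = 1 / (R + 1) := by rw [hq]; field_simp; ring
  have e2 : 1 - q = q / R := by rw [e1, hq]; field_simp
  have e3 : |q ^ d - q ^ d'| ≤ q ^ d / R := by
    have hd : d' = d ∨ d' = d + 1 ∨ d = d' + 1 := by omega
    rcases hd with rfl | rfl | rfl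
    · rw [sub_self, abs_zero]
      positivity
    · have e4 : q ^ d - q ^ (d + 1) = q ^ d * (1 - q) := by ring
      rw [e4, abs_of_nonneg (by rw [e1]; positivity), div_eq_mul_inv]
      refine mul_le_mul_of_nonneg_left ?_ (by positivity)
      rw [e1, one_div]
      exact inv_anti₀ hR (by linarith)
    · have e4 : q ^ (d' + 1) - q ^ d' = -(q ^ (d' + 1) / R) := by
        have : q ^ (d' + 1) - q ^ d' = -(q ^ d' * (1 - q)) := by ring
        rw [this, e2]
        ring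
      rw [e4, abs_neg, abs_of_nonneg (by positivity)]
  have e5 : (q ^ d - q ^ d') ^ 2 ≤ (q ^ d / R) ^ 2 := by
    rw [← sq_abs]
    exact pow_le_pow_left₀ (abs_nonneg _) e3 2
  refine e5.trans (le_of_eq ?_)
  rw [div_pow, ← pow_mul, mul_comm d 2]

omit [Fintype E] in
/-- the estimate at one clique -/
theorem local_bound (Z : Finset E) (F φ w : E → ℝ) (hF : ∑ z ∈ Z, F z = 0)
    (hw : ∀ z, 0 ≤ w z)
    (h : ∀ z ∈ Z, ∀ z' ∈ Z, F z ≠ 0 → F z' ≠ 0 → (φ z - φ z') ^ 2 ≤ w z) :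
    (∑ z ∈ Z, φ z * F z) ^ 2 ≤ 1 / 2 * ((Z.card : ℝ) - 1) * ∑ z ∈ Z, w z * F z ^ 2 := by
  have h1 : (∑ z ∈ Z, φ z * F z) ^ 2 =
      1 / 2 * ∑ z ∈ Z, ∑ z' ∈ Z, -(F z * F z' * (φ z - φ z') ^ 2) := by
    have e1 : ∀ z ∈ Z, ∑ z' ∈ Z, -(F z * F z' * (φ z - φ z') ^ 2) =
        2 * (φ z * F z) * (∑ z' ∈ Z, φ z' * F z') - F z * ∑ z' ∈ Z, φ z' ^ 2 * F z' := by
      intro z _
      have e2 : ∑ z' ∈ Z, -(F z * F z' * (φ z - φ z') ^ 2) =
          2 * (φ z * F z) * (∑ z' ∈ Z, φ z' * F z') - F z * (∑ z' ∈ Z, φ z' ^ 2 * F z') -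
            F z * φ z ^ 2 * ∑ z' ∈ Z, F z' := by
        rw [Finset.mul_sum, Finset.mul_sum, Finset.mul_sum, ← Finset.sum_sub_distrib,
          ← Finset.sum_sub_distrib]
        refine Finset.sum_congr rfl fun z' _ => ?_
        ring
      rw [e2, hF]
      ring
    rw [Finset.sum_congr rfl e1, Finset.sum_sub_distrib, ← Finset.sum_mul, ← Finset.sum_mul, hF,
      ← Finset.mul_sum]
    ring
  have h2 : ∀ z ∈ Z, ∀ z' ∈ Z, -(F z * F z' * (φ z - φ z') ^ 2) ≤
      1 / 2 * (w z * F z ^ 2 + w z' * F z' ^ 2) - if z = z' then w z * F z ^ 2 else 0 := by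
    intro z hz z' hz'
    split_ifs with h3
    · rw [← h3]
      have : -(F z * F z * (φ z - φ z) ^ 2) = 0 := by ring
      rw [this]
      linarith
    · rw [sub_zero]
      by_cases h4 : F z = 0
      · rw [h4]
        have := mul_nonneg (hw z') (sq_nonneg (F z'))
        nlinarith
      by_cases h5 : F z' = 0
      · rw [h5]
        have := mul_nonneg (hw z) (sq_nonneg (F z))
        nlinarith
      have h6 := h z hz z' hz' h4 h5
      have h7 := h z' hz' z hz h5 h4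
      have h8 : (φ z' - φ z) ^ 2 = (φ z - φ z') ^ 2 := by ring
      rw [h8] at h7
      have h9 : -(F z * F z') ≤ 1 / 2 * (F z ^ 2 + F z' ^ 2) := by nlinarith [sq_nonneg (F z + F z')]
      calc -(F z * F z' * (φ z - φ z') ^ 2) = -(F z * F z') * (φ z - φ z') ^ 2 := by ring
        _ ≤ 1 / 2 * (F z ^ 2 + F z' ^ 2) * (φ z - φ z') ^ 2 :=
          mul_le_mul_of_nonneg_right h9 (sq_nonneg _)
        _ = 1 / 2 * ((φ z - φ z') ^ 2 * F z ^ 2 + (φ z - φ z') ^ 2 * F z' ^ 2) := by ring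
        _ ≤ 1 / 2 * (w z * F z ^ 2 + w z' * F z' ^ 2) := by
          have h10 := mul_le_mul_of_nonneg_right h6 (sq_nonneg (F z))
          have h11 := mul_le_mul_of_nonneg_right h7 (sq_nonneg (F z'))
          linarith
  have h3 : ∑ z ∈ Z, ∑ z' ∈ Z, (1 / 2 * (w z * F z ^ 2 + w z' * F z' ^ 2) -
      if z = z' then w z * F z ^ 2 else 0) = ((Z.card : ℝ) - 1) * ∑ z ∈ Z, w z * F z ^ 2 := by
    have e1 : ∀ z ∈ Z, ∑ z' ∈ Z, (1 / 2 * (w z * F z ^ 2 + w z' * F z' ^ 2) -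
        if z = z' then w z * F z ^ 2 else 0) = (Z.card : ℝ) * (1 / 2 * (w z * F z ^ 2)) +
          1 / 2 * (∑ z' ∈ Z, w z' * F z' ^ 2) - w z * F z ^ 2 := by
      intro z hz
      rw [Finset.sum_sub_distrib, Finset.sum_ite_eq, if_pos hz, ← Finset.mul_sum,
        Finset.sum_add_distrib, Finset.sum_const, nsmul_eq_mul]
      ring
    rw [Finset.sum_congr rfl e1, Finset.sum_sub_distrib, Finset.sum_add_distrib,
      ← Finset.mul_sum, ← Finset.mul_sum, Finset.sum_const, nsmul_eq_mul]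
    ring
  rw [h1]
  have h4 : ∑ z ∈ Z, ∑ z' ∈ Z, -(F z * F z' * (φ z - φ z') ^ 2) ≤
      ((Z.card : ℝ) - 1) * ∑ z ∈ Z, w z * F z ^ 2 := by
    rw [← h3]
    exact Finset.sum_le_sum fun z hz => Finset.sum_le_sum fun z' hz' => h2 z hz z' hz'
  linarith

/-- the decay estimate -/
theorem agmon {r : ℕ} (hE : Fintype.card E = 2 * (r + 1)) {f : Finset E → ℝ}
    (hf : ∀ S, S.card ≠ r + 1 → f S = 0) (hD : ∀ K, dn f K = 0) {d : Finset E → ℕ} {T : ℕ}
    (hdT : ∀ S, d S ≤ T)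
    (hdist : ∀ K : Finset E, ∀ z ∈ Kᶜ, ∀ z' ∈ Kᶜ, f (insert z K) ≠ 0 → f (insert z' K) ≠ 0 →
      d (insert z K) ≤ d (insert z' K) + 1)
    (hsep : ∀ S, f S ≠ 0 → d S < T → d Sᶜ = T) {q : ℝ}
    (hq : q = ((r : ℝ) + 1) / ((r : ℝ) + 1 + 1)) :
    ∑ S, f S ^ 2 * q ^ (2 * d S) ≤ 12 * q ^ (2 * T) * ∑ S, f S ^ 2 := by
  have hR : (0 : ℝ) < (r : ℝ) + 1 := by positivity
  have hq0 : 0 < q := by rw [hq]; positivity
  obtain ⟨g, hg⟩ : ∃ g : Finset E → ℝ, ∀ S, g S = (q ^ d S - q ^ T) * f S := ⟨_, fun S => rfl⟩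
  have h1 : ∑ S, g S ^ 2 ≤ ∑ K, dn g K ^ 2 := by
    refine half_ineq hE (fun S hS => by rw [hg, hf S hS, mul_zero]) fun S => ?_
    by_cases h2 : f S = 0
    · rw [hg, h2, mul_zero, zero_mul]
    rcases (hdT S).lt_or_eq with h3 | h3
    · rw [hg Sᶜ, hsep S h2 h3, sub_self, zero_mul, mul_zero]
    · rw [hg S, h3, sub_self, zero_mul, zero_mul]
  have h2 : ∀ K : Finset E, dn g K ^ 2 ≤ 1 / 2 * ((r : ℝ) + 1) *
      ∑ z ∈ Kᶜ, q ^ (2 * d (insert z K)) / ((r : ℝ) + 1) ^ 2 * f (insert z K) ^ 2 := by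
    intro K
    by_cases hK : K.card = r
    · have e1 := local_bound Kᶜ (fun z => f (insert z K)) (fun z => q ^ d (insert z K) - q ^ T)
        (fun z => q ^ (2 * d (insert z K)) / ((r : ℝ) + 1) ^ 2) (hD K) (fun z => by positivity)
        (fun z hz z' hz' h3 h4 => by
          have e2 := phi_diff hR hq (hdist K z hz z' hz' h3 h4) (hdist K z' hz' z hz h4 h3)
          have e3 : q ^ d (insert z K) - q ^ T - (q ^ d (insert z' K) - q ^ T) =
            q ^ d (insert z K) - q ^ d (insert z' K) := by ring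
          show (q ^ d (insert z K) - q ^ T - (q ^ d (insert z' K) - q ^ T)) ^ 2 ≤ _
          rw [e3]
          exact e2)
      have e2 : (Kᶜ.card : ℝ) - 1 = (r : ℝ) + 1 := by
        rw [Finset.card_compl, hE, hK]
        have : 2 * (r + 1) - r = r + 2 := by omega
        rw [this]
        push_cast
        ring
      rw [e2] at e1
      have e3 : dn g K = ∑ z ∈ Kᶜ, (q ^ d (insert z K) - q ^ T) * f (insert z K) :=
        Finset.sum_congr rfl fun z _ => hg _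
      rw [e3]
      exact e1
    · have e1 : dn g K = 0 := by
        refine dn_eq_zero_of_level (r := r) (fun S hS => ?_) hK
        rw [hg, hf S hS, mul_zero]
      rw [e1]
      have : (0 : ℝ) ^ 2 = 0 := by norm_num
      rw [this]
      exact mul_nonneg (by positivity) (Finset.sum_nonneg fun z _ => by positivity)
  have h3 : ∑ K : Finset E, ∑ z ∈ Kᶜ,
      q ^ (2 * d (insert z K)) / ((r : ℝ) + 1) ^ 2 * f (insert z K) ^ 2 =
      1 / ((r : ℝ) + 1) * ∑ S, f S ^ 2 * q ^ (2 * d S) := by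
    rw [← sum_all fun (S : Finset E) (_ : E) => q ^ (2 * d S) / ((r : ℝ) + 1) ^ 2 * f S ^ 2,
      Finset.mul_sum]
    refine Finset.sum_congr rfl fun S _ => ?_
    rw [Finset.sum_const, nsmul_eq_mul]
    by_cases hS : S.card = r + 1
    · rw [hS]
      push_cast
      field_simp
    · rw [hf S hS]
      ring
  have h4 : ∑ K, dn g K ^ 2 ≤ 1 / 2 * ∑ S, f S ^ 2 * q ^ (2 * d S) := by
    calc ∑ K, dn g K ^ 2 ≤ ∑ K : Finset E, 1 / 2 * ((r : ℝ) + 1) *
          ∑ z ∈ Kᶜ, q ^ (2 * d (insert z K)) / ((r : ℝ) + 1) ^ 2 * f (insert z K) ^ 2 :=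
          Finset.sum_le_sum fun K _ => h2 K
      _ = 1 / 2 * ((r : ℝ) + 1) * (1 / ((r : ℝ) + 1) * ∑ S, f S ^ 2 * q ^ (2 * d S)) := by
          rw [← Finset.mul_sum, h3]
      _ = 1 / 2 * ∑ S, f S ^ 2 * q ^ (2 * d S) := by field_simp
  have h5 : 3 / 4 * (∑ S, f S ^ 2 * q ^ (2 * d S)) - 3 * q ^ (2 * T) * ∑ S, f S ^ 2 ≤
      ∑ S, g S ^ 2 := by
    rw [Finset.mul_sum, Finset.mul_sum, ← Finset.sum_sub_distrib]
    refine Finset.sum_le_sum fun S _ => ?_
    have e1 : q ^ (2 * d S) = (q ^ d S) ^ 2 := by rw [← pow_mul, mul_comm]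
    have e2 : q ^ (2 * T) = (q ^ T) ^ 2 := by rw [← pow_mul, mul_comm]
    rw [hg, e1, e2]
    have e3 := mul_nonneg (sq_nonneg (f S)) (sq_nonneg (q ^ d S / 2 - 2 * q ^ T))
    nlinarith
  linarith

end Pool.Agent.Helper36.Swap
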