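import Pool.Agent.Helper36.Swap.Perm

/-!
# The up and down operators of the Boolean lattice

`dn g K = ∑_{z ∉ K} g (K + z)`, `up g S = ∑_{w ∈ S} g (S - w)`.
-/

set_option autoImplicit false

namespace Pool.Agent.Helper36.Swap

open Finset

variable {E : Type*} [Fintype E] [DecidableEq E]

/-- the down operator -/
def dn (g : Finset E → ℝ) (K : Finset E) : ℝ := ∑ z ∈ Kᶜ, g (insert z K)

/-- the up operator -/
def up (g : Finset E → ℝ) (S : Finset E) : ℝ := ∑ w ∈ S, g (S.erase w)

/-- double counting over all levels -/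
theorem sum_all {β : Type*} [AddCommMonoid β] (f : Finset E → E → β) :
    ∑ S : Finset E, ∑ w ∈ S, f S w = ∑ K : Finset E, ∑ w ∈ Kᶜ, f (insert w K) w := by
  rw [Finset.sum_sigma', Finset.sum_sigma']
  refine Finset.sum_bij' (fun p _ => ⟨p.1.erase p.2, p.2⟩) (fun p _ => ⟨insert p.2 p.1, p.2⟩)
    ?_ ?_ ?_ ?_ ?_
  · rintro ⟨P, x⟩ h
    rw [Finset.mem_sigma]
    exact ⟨Finset.mem_univ _, Finset.mem_compl.2 (Finset.notMem_erase _ _)⟩
  · rintro ⟨P, x⟩ h
    rw [Finset.mem_sigma]
    exact ⟨Finset.mem_univ _, Finset.mem_insert_self _ _⟩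
  · rintro ⟨P, x⟩ h
    rw [Finset.mem_sigma] at h
    show (⟨insert x (P.erase x), x⟩ : (_ : Finset E) × E) = ⟨P, x⟩
    rw [Finset.insert_erase h.2]
  · rintro ⟨P, x⟩ h
    rw [Finset.mem_sigma, Finset.mem_compl] at h
    show (⟨(insert x P).erase x, x⟩ : (_ : Finset E) × E) = ⟨P, x⟩
    rw [Finset.erase_insert h.2]
  · rintro ⟨P, x⟩ h
    rw [Finset.mem_sigma] at h
    show f P x = f (insert x (P.erase x)) x
    rw [Finset.insert_erase h.2]

/-- the operators are adjoint -/
theorem adj (g h : Finset E → ℝ) : ∑ S, up g S * h S = ∑ K, g K * dn h K := by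
  have h1 := sum_all fun (S : Finset E) (w : E) => g (S.erase w) * h S
  simp only [up, dn, Finset.sum_mul, Finset.mul_sum]
  rw [h1]
  refine Finset.sum_congr rfl fun K _ => Finset.sum_congr rfl fun w hw => ?_
  rw [Finset.erase_insert (Finset.mem_compl.1 hw)]

/-- `D U - U D = n - 2 k` -/
theorem comm (g : Finset E → ℝ) (S : Finset E) :
    dn (up g) S = up (dn g) S + ((Fintype.card E : ℝ) - 2 * S.card) * g S := by
  have h1 : ∀ z ∈ Sᶜ, up g (insert z S) = g S + ∑ w ∈ S, g (insert z (S.erase w)) := by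
    intro z hz
    have hz' := Finset.mem_compl.1 hz
    unfold up
    rw [Finset.sum_insert hz', Finset.erase_insert hz']
    congr 1
    refine Finset.sum_congr rfl fun w hw => ?_
    rw [Finset.erase_insert_of_ne]
    rintro rfl
    exact hz' hw
  have h2 : ∀ w ∈ S, dn g (S.erase w) = g S + ∑ z ∈ Sᶜ, g (insert z (S.erase w)) := by
    intro w hw
    unfold dn
    rw [Finset.compl_erase, Finset.sum_insert (by simpa using hw), Finset.insert_erase hw]
  have h3 : dn (up g) S = (Sᶜ.card : ℝ) * g S + ∑ z ∈ Sᶜ, ∑ w ∈ S, g (insert z (S.erase w)) := by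
    have : dn (up g) S = ∑ z ∈ Sᶜ, up g (insert z S) := rfl
    rw [this, Finset.sum_congr rfl h1, Finset.sum_add_distrib, Finset.sum_const, nsmul_eq_mul]
  have h4 : up (dn g) S = (S.card : ℝ) * g S + ∑ w ∈ S, ∑ z ∈ Sᶜ, g (insert z (S.erase w)) := by
    have : up (dn g) S = ∑ w ∈ S, dn g (S.erase w) := rfl
    rw [this, Finset.sum_congr rfl h2, Finset.sum_add_distrib, Finset.sum_const, nsmul_eq_mul]
  have h5 : (Sᶜ.card : ℝ) = (Fintype.card E : ℝ) - S.card := by
    rw [Finset.card_compl, Nat.cast_sub (Finset.card_le_univ S)]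
  rw [h3, h4, h5, Finset.sum_comm]
  ring

/-- `‖U g‖² = ‖D g‖² + ∑ (n - 2 |S|) g(S)²` -/
theorem norm_up (g : Finset E → ℝ) :
    ∑ S, up g S ^ 2 = ∑ K, dn g K ^ 2 + ∑ S, ((Fintype.card E : ℝ) - 2 * S.card) * g S ^ 2 := by
  have h1 : ∑ S, up g S ^ 2 = ∑ K, g K * dn (up g) K := by
    rw [← adj]
    exact Finset.sum_congr rfl fun S _ => by ring
  have h2 : ∑ K, dn g K ^ 2 = ∑ S, up (dn g) S * g S := by
    rw [adj]
    exact Finset.sum_congr rfl fun S _ => by ring
  rw [h1, h2, ← Finset.sum_add_distrib]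
  refine Finset.sum_congr rfl fun S _ => ?_
  rw [comm]
  ring

/-- A function on the sets of size `r` in a set with `2 r` elements which is annihilated by the
down operator is symmetric or antisymmetric under the complement. -/
theorem ker_symm {r : ℕ} (hE : Fintype.card E = 2 * r) {F : Finset E → ℝ}
    (hF : ∀ S, S.card ≠ r → F S = 0) (hD : ∀ K, dn F K = 0) {J : Finset E} (hJ : J.card = r) :
    F Jᶜ = (-1) ^ r * F J := by
  -- `q t = ∑_S F S ∏_{e ∈ S} (1_J e + t)` is constant
  obtain ⟨x, hx⟩ : ∃ x : E → ℝ, ∀ e, x e = if e ∈ J then 1 else 0 := ⟨_, fun e => rfl⟩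
  obtain ⟨q, hq⟩ : ∃ q : ℝ → ℝ, ∀ t, q t = ∑ S : Finset E, F S * ∏ e ∈ S, (x e + t) :=
    ⟨_, fun t => rfl⟩
  have h1 : ∀ t, HasDerivAt q 0 t := by
    intro t
    have e1 : q = fun t => ∑ S : Finset E, F S * ∏ e ∈ S, (x e + t) := funext hq
    have e2 : ∀ S ∈ (Finset.univ : Finset (Finset E)), HasDerivAt
        (fun t => F S * ∏ e ∈ S, (x e + t)) (F S * ∑ w ∈ S, ∏ e ∈ S.erase w, (x e + t)) t := by
      intro S _
      refine HasDerivAt.const_mul _ ?_
      have e3 := HasDerivAt.fun_finsetProd (u := S) (f := fun e t => x e + t) (f' := fun _ => 1)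
        (x := t) fun e _ => (hasDerivAt_id t).const_add (x e)
      simpa using e3
    have e4 := HasDerivAt.fun_sum e2
    rw [e1]
    suffices key : ∑ S : Finset E, F S * ∑ w ∈ S, ∏ e ∈ S.erase w, (x e + t) = 0 by
      rw [key] at e4
      exact e4
    simp only [Finset.mul_sum]
    rw [sum_all fun (S : Finset E) (w : E) => F S * ∏ e ∈ S.erase w, (x e + t)]
    refine Finset.sum_eq_zero fun K _ => ?_
    have e5 : ∀ w ∈ Kᶜ, F (insert w K) * ∏ e ∈ (insert w K).erase w, (x e + t) =
        F (insert w K) * ∏ e ∈ K, (x e + t) := fun w hw => by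
      rw [Finset.erase_insert (Finset.mem_compl.1 hw)]
    rw [Finset.sum_congr rfl e5, ← Finset.sum_mul]
    have e6 := hD K
    unfold dn at e6
    rw [e6, zero_mul]
  have h2 : q 0 = q (-1) := by
    have e1 := is_const_of_deriv_eq_zero (f := q) (fun t => (h1 t).differentiableAt)
      (fun t => (h1 t).deriv)
    exact e1 0 (-1)
  have h3 : q 0 = F J := by
    rw [hq, Finset.sum_eq_single J]
    · rw [Finset.prod_eq_one, mul_one]
      intro e he
      rw [hx, if_pos he, add_zero]
    · intro S _ hS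
      by_cases h4 : S.card = r
      · rw [mul_eq_zero]
        right
        obtain ⟨e, he, he'⟩ : ∃ e ∈ S, e ∉ J := by
          by_contra hcon
          push Not at hcon
          exact hS (Finset.eq_of_subset_of_card_le hcon (by rw [h4, hJ]))
        refine Finset.prod_eq_zero he ?_
        rw [hx, if_neg he', add_zero]
      · rw [hF S h4, zero_mul]
    · intro h
      exact absurd (Finset.mem_univ _) h
  have hJc : Jᶜ.card = r := by
    rw [Finset.card_compl, hE, hJ]
    omega
  have h4 : q (-1) = (-1) ^ r * F Jᶜ := by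
    rw [hq, Finset.sum_eq_single Jᶜ]
    · rw [mul_comm]
      congr 1
      rw [Finset.prod_congr rfl (g := fun _ => (-1 : ℝ)), Finset.prod_const, hJc]
      intro e he
      rw [hx, if_neg (Finset.mem_compl.1 he), zero_add]
    · intro S _ hS
      by_cases h4 : S.card = r
      · rw [mul_eq_zero]
        right
        obtain ⟨e, he, he'⟩ : ∃ e ∈ S, e ∉ Jᶜ := by
          by_contra hcon
          push Not at hcon
          exact hS (Finset.eq_of_subset_of_card_le hcon (by rw [h4, hJc]))
        refine Finset.prod_eq_zero he ?_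
        rw [Finset.mem_compl, not_not] at he'
        rw [hx, if_pos he']
        norm_num
      · rw [hF S h4, zero_mul]
    · intro h
      exact absurd (Finset.mem_univ _) h
  rw [← h3, h2, h4, ← mul_assoc, ← mul_pow]
  norm_num

end Pool.Agent.Helper36.Swap
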