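import Pool.Agent.Helper36.Swap.Perm

/-!
# Components of the exchange graph, and the translation to matroids
-/

set_option autoImplicit false

namespace Pool.Agent.Helper36.Swap

open Finset

section comp

variable {ι : Type*} [Fintype ι] [DecidableEq ι] {K : Type*} [Field K]

/-- the nodes next to the half node `(P, Q)` -/
def Cl (P Q : Finset ι) : Set (Finset ι × Finset ι) :=
  {p | (∃ x ∈ P, p = (P.erase x, Q)) ∨ ∃ y ∈ Qᶜ, p = (P, insert y Q)}

/-- one exchange between two nodes, the second of which is nonzero -/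
def Stp (N : Matrix ι ι K) (Y : Finset ι) (p q : Finset ι × Finset ι) : Prop :=
  p ≠ q ∧ hh N q.1 q.2 ≠ 0 ∧ ∃ P Q : Finset ι, P ⊆ Y ∧ p ∈ Cl P Q ∧ q ∈ Cl P Q

theorem component (N : Matrix ι ι K) (Y : Finset ι) (hY : ((Y.card.factorial : ℕ) : K) ≠ 0)
    (hN : N.det ≠ 0) : ∃ Q : Finset ι, Relation.ReflTransGen (Stp N Y) (∅, ∅) (Y, Q) := by
  classical
  obtain ⟨R, hR⟩ : ∃ R : Finset ι × Finset ι → Prop,
      R = fun p => Relation.ReflTransGen (Stp N Y) (∅, ∅) p := ⟨_, rfl⟩
  obtain ⟨F, hFd⟩ : ∃ F : Finset ι → Finset ι → K, ∀ P Q, F P Q =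
      if R (P, Q) then hh N P Q else 0 := ⟨_, fun P Q => rfl⟩
  have key : ∀ P Q : Finset ι, P ⊆ Y →
      ∑ x ∈ P, F (P.erase x) Q = ∑ y ∈ Qᶜ, F P (insert y Q) := by
    intro P Q hPY
    by_cases hex : ∃ p ∈ Cl P Q, R p
    · obtain ⟨p, hp, hRp⟩ := hex
      have h1 : ∀ q ∈ Cl P Q, F q.1 q.2 = hh N q.1 q.2 := by
        intro q hq
        rw [hFd]
        by_cases h2 : R (q.1, q.2)
        · rw [if_pos h2]
        rw [if_neg h2]
        by_contra h3
        apply h2
        rw [hR] at hRp ⊢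
        by_cases h4 : p = q
        · rw [← h4]
          exact hRp
        · exact Relation.ReflTransGen.tail hRp ⟨h4, fun h5 => h3 h5.symm, P, Q, hPY, hp, hq⟩
      rw [Finset.sum_congr rfl fun x hx => h1 (P.erase x, Q) (Or.inl ⟨x, hx, rfl⟩),
        Finset.sum_congr rfl fun y hy => h1 (P, insert y Q) (Or.inr ⟨y, hy, rfl⟩)]
      exact half_node N P Q
    · have h1 : ∀ q ∈ Cl P Q, F q.1 q.2 = 0 := by
        intro q hq
        rw [hFd, if_neg]
        exact fun h2 => hex ⟨q, hq, h2⟩
      rw [Finset.sum_congr rfl fun x hx => h1 (P.erase x, Q) (Or.inl ⟨x, hx, rfl⟩),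
        Finset.sum_congr rfl fun y hy => h1 (P, insert y Q) (Or.inr ⟨y, hy, rfl⟩),
        Finset.sum_const_zero, Finset.sum_const_zero]
  have h0 : F ∅ ∅ ≠ 0 := by
    have h1 : R (∅, ∅) := by
      rw [hR]
    rw [hFd, if_pos h1, hh_empty]
    exact hN
  obtain ⟨Q, hQ⟩ := level_top Y F key hY h0
  refine ⟨Q, ?_⟩
  by_contra hcon
  rw [hFd, if_neg] at hQ
  · exact hQ rfl
  · rw [hR]
    exact hcon

theorem reach_ne {N : Matrix ι ι K} {Y : Finset ι} (hN : N.det ≠ 0) {p : Finset ι × Finset ι}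
    (h : Relation.ReflTransGen (Stp N Y) (∅, ∅) p) : hh N p.1 p.2 ≠ 0 := by
  induction h with
  | refl => rw [hh_empty]; exact hN
  | tail _ h2 _ => exact h2.2.1

end comp

section matroid

variable {α : Type*} {M : Matroid α} {K : Type*} [Field K] {W : Type*} [AddCommGroup W]
  [Module K W] {v : α → W} {ι : Type*} [Fintype ι] [DecidableEq ι]

/-- the set which belongs to a node -/
def JJ (a b : ι → α) (p : Finset ι × Finset ι) : Set α :=
  a '' (((p.1)ᶜ : Finset ι) : Set ι) ∪ b '' ((p.2 : Finset ι) : Set ι)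

/-- a nonzero node is linearly independent -/
theorem linIndep_JJ {a b : ι → α} (ha : Function.Injective a) (hb : Function.Injective b)
    (hA : LinearIndependent K fun i => v (a i)) (hB : LinearIndependent K fun j => v (b j))
    {N : Matrix ι ι K} (hN : ∀ j, v (b j) = ∑ i, N i j • v (a i)) {P Q : Finset ι}
    (h : hh N P Q ≠ 0) : LinearIndepOn K v (JJ a b (P, Q)) := by
  classical
  rw [hh_eq_det] at h
  have hA' : LinearIndepOn K v (a '' ((Pᶜ : Finset ι) : Set ι)) := by
    have h1 : LinearIndepOn K v (Set.range a) := (linearIndepOn_range_iff ha v).2 hA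
    exact h1.mono (Set.image_subset_range _ _)
  have hB' : LinearIndepOn K v (b '' (Q : Set ι)) := by
    have h1 : LinearIndepOn K v (Set.range b) := (linearIndepOn_range_iff hb v).2 hB
    exact h1.mono (Set.image_subset_range _ _)
  refine hA'.union hB' ?_
  rw [Submodule.disjoint_def]
  intro z hz1 hz2
  rw [Set.image_image] at hz1 hz2
  have hz1' : z ∈ Submodule.span K ((fun i => v (a i)) '' ((Pᶜ : Finset ι) : Set ι)) := hz1
  have hz2' : z ∈ Submodule.span K ((fun j => v (b j)) '' ((Q : Finset ι) : Set ι)) := hz2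
  rw [Submodule.mem_span_image_finset_iff_exists_fun'] at hz1' hz2'
  obtain ⟨x, hx⟩ := hz1'
  obtain ⟨y, hy⟩ := hz2'
  -- coordinates
  have h1 : ∑ i, (∑ j ∈ Q, y j * N i j) • v (a i) = z := by
    rw [← hy]
    simp only [hN, Finset.smul_sum, Finset.sum_smul, smul_smul]
    exact Finset.sum_comm
  have h2 : ∑ i, (if i ∈ Pᶜ then x i else 0) • v (a i) = z := by
    rw [← hx]
    simp only [ite_smul, zero_smul]
    rw [Finset.sum_ite_mem, Finset.univ_inter]
  have h3 : ∀ i, ∑ j ∈ Q, y j * N i j = if i ∈ Pᶜ then x i else 0 := by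
    have h4 : ∑ i, ((∑ j ∈ Q, y j * N i j) - if i ∈ Pᶜ then x i else 0) • v (a i) = 0 := by
      simp only [sub_smul]
      rw [Finset.sum_sub_distrib, h1, h2, sub_self]
    intro i
    exact sub_eq_zero.1 (Fintype.linearIndependent_iff.1 hA _ h4 i)
  have h5 : (cut N P Q).mulVec (fun j => if j ∈ Q then y j else 0) = 0 := by
    funext i
    rw [Matrix.mulVec, dotProduct]
    have h6 : ∀ j, cut N P Q i j * (if j ∈ Q then y j else 0) =
        if j ∈ Q then (if i ∈ P then y j * N i j else 0) else 0 := by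
      intro j
      unfold cut
      by_cases h7 : j ∈ Q
      · by_cases h8 : i ∈ P
        · simp [h7, h8, mul_comm]
        · simp [h7, h8]
      · simp [h7]
    rw [Finset.sum_congr rfl fun j _ => h6 j, Finset.sum_ite_mem, Finset.univ_inter]
    by_cases h8 : i ∈ P
    · simp only [if_pos h8]
      rw [h3 i, if_neg]
      · rfl
      · rw [Finset.mem_compl, not_not]
        exact h8
    · simp [h8]
  have h6 : (fun j => if j ∈ Q then y j else 0) = (0 : ι → K) := by
    by_contra hne
    exact h (Matrix.exists_mulVec_eq_zero_iff.1 ⟨_, hne, h5⟩)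
  rw [← hy]
  refine Finset.sum_eq_zero fun j hj => ?_
  have h7 := congrFun h6 j
  simp only [hj, if_true, Pi.zero_apply] at h7
  rw [h7, zero_smul]

end matroid

end Pool.Agent.Helper36.Swap
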