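import Pool.Agent.Helper36.Swap.Fin

/-!
# Matroids represented by complex vectors: all pairs
-/

set_option autoImplicit false

namespace Pool.Agent.Helper36.Swap

open Finset

section mix

variable {ι : Type*} [Fintype ι] [DecidableEq ι] {K : Type*} [Field K]

/-- the columns of `N` in `p`, unit vectors elsewhere -/
def mixp (N : Matrix ι ι K) (p : ι → Prop) [DecidablePred p] : Matrix ι ι K :=
  fun i j => if p j then N i j else if i = j then 1 else 0

omit [Fintype ι] in
theorem mixp_pos (N : Matrix ι ι K) {p : ι → Prop} [DecidablePred p] {i j : ι} (h : p j) :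
    mixp N p i j = N i j := if_pos h

omit [Fintype ι] in
theorem mixp_neg (N : Matrix ι ι K) {p : ι → Prop} [DecidablePred p] {i j : ι} (h : ¬ p j) :
    mixp N p i j = if i = j then 1 else 0 := if_neg h

theorem det_mixp (N : Matrix ι ι K) (p : ι → Prop) [DecidablePred p] :
    (mixp N p).det = (N.toSquareBlockProp p).det := by
  have h1 : (mixp N p).toSquareBlockProp (fun i => ¬ p i) = 1 := by
    ext i j
    rw [Matrix.toSquareBlockProp_def, Matrix.of_apply, mixp_neg N j.2, Matrix.one_apply]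
    simp only [Subtype.ext_iff]
  have h2 : (mixp N p).toSquareBlockProp p = N.toSquareBlockProp p := by
    ext i j
    rw [Matrix.toSquareBlockProp_def, Matrix.toSquareBlockProp_def, Matrix.of_apply,
      Matrix.of_apply, mixp_pos N j.2]
  rw [Matrix.twoBlockTriangular_det' (mixp N p) p, h1, h2, Matrix.det_one, mul_one]
  intro i hi j hj
  rw [mixp_neg N hj, if_neg]
  rintro rfl
  exact hj hi

theorem det_block (N N' : Matrix ι ι K) (p : ι → Prop) [DecidablePred p]
    (h1 : ∀ i j, p i → p j → N' i j = N i j) (h2 : ∀ i j, ¬ p i → ¬ p j → N' i j = N i j)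
    (h3 : ∀ i, p i → ∀ j, ¬ p j → N' i j = 0) :
    N'.det = (mixp N p).det * (mixp N fun i => ¬ p i).det := by
  have e1 : N'.toSquareBlockProp p = N.toSquareBlockProp p := by
    ext i j
    rw [Matrix.toSquareBlockProp_def, Matrix.toSquareBlockProp_def, Matrix.of_apply,
      Matrix.of_apply, h1 _ _ i.2 j.2]
  have e2 : N'.toSquareBlockProp (fun i => ¬ p i) = N.toSquareBlockProp fun i => ¬ p i := by
    ext i j
    rw [Matrix.toSquareBlockProp_def, Matrix.toSquareBlockProp_def, Matrix.of_apply,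
      Matrix.of_apply, h2 _ _ i.2 j.2]
  rw [Matrix.twoBlockTriangular_det' N' p h3, e1, e2, det_mixp, det_mixp]

/-- the columns of `N` at `P`, unit vectors elsewhere -/
def mix (N : Matrix ι ι K) (P : Finset ι) : Matrix ι ι K :=
  fun i j => if j ∈ P then N i j else if i = j then 1 else 0

omit [Fintype ι] in
theorem cut_pos (N : Matrix ι ι K) {P Q : Finset ι} {i j : ι} (h : i ∈ P ↔ j ∈ Q) :
    cut N P Q i j = N i j := by
  unfold cut
  rw [if_pos h]

omit [Fintype ι] in
theorem cut_neg (N : Matrix ι ι K) {P Q : Finset ι} {i j : ι} (h : ¬ (i ∈ P ↔ j ∈ Q)) :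
    cut N P Q i j = 0 := by
  unfold cut
  rw [if_neg h]

theorem det_cut_self (N : Matrix ι ι K) (P : Finset ι) :
    (cut N P P).det = (mix N P).det * (mix N Pᶜ).det := by
  have e1 : mix N P = mixp N fun i => i ∈ P := rfl
  have e2 : mix N Pᶜ = mixp N fun i => ¬ i ∈ P := by
    ext i j
    by_cases hj : j ∈ P
    · rw [mixp_neg N (not_not.2 hj)]
      unfold mix
      rw [if_neg]
      rw [Finset.mem_compl]
      exact not_not.2 hj
    · rw [mixp_pos N hj]
      unfold mix
      rw [if_pos (Finset.mem_compl.2 hj)]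
  rw [e1, e2]
  exact det_block N (cut N P P) (fun i => i ∈ P) (fun i j hi hj => cut_pos N ⟨fun _ => hj, fun _ => hi⟩)
    (fun i j hi hj => cut_pos N ⟨fun h => absurd h hi, fun h => absurd h hj⟩)
    fun i hi j hj => cut_neg N fun h => hj (h.1 hi)

end mix

/-- the determinant of the vectors `v (c 0), v (c 1), …` -/
noncomputable def dt {α K : Type*} [Field K] {r : ℕ} (v : α → Fin r → K) (c : Fin r → α) : K :=
  (Matrix.of fun i j => v (c j) i).det

section field

variable {α : Type*} {M : Matroid α} {r : ℕ} {K : Type*} [Field K] {v : α → Fin r → K}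
  {A B : Set α} {a b : Fin r → α} {N : Matrix (Fin r) (Fin r) K}

/-- multiplication by the matrix of the basis `A` -/
theorem det_mul_mix (hN : ∀ j, v (b j) = ∑ i, N i j • v (a i)) (σ : Equiv.Perm (Fin r))
    (P : Finset (Fin r)) :
    dt v a * (mix (N.submatrix id σ.symm) P).det =
      dt v fun j => if j ∈ P then b (σ.symm j) else a j := by
  unfold dt
  rw [← Matrix.det_mul]
  congr 1
  ext i j
  rw [Matrix.mul_apply, Matrix.of_apply]
  have e1 : ∀ l, (Matrix.of fun i j => v (a j) i) i l = v (a l) i := fun l => rfl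
  simp only [e1]
  unfold mix
  by_cases hj : j ∈ P
  · simp only [if_pos hj, Matrix.submatrix_apply, id]
    rw [hN]
    rw [Finset.sum_apply]
    refine Finset.sum_congr rfl fun l _ => ?_
    rw [Pi.smul_apply, smul_eq_mul, mul_comm]
  · simp only [if_neg hj]
    rw [Finset.sum_eq_single j]
    · rw [if_pos rfl, mul_one]
    · intro l _ hl
      rw [if_neg hl, mul_zero]
    · intro h
      exact absurd (Finset.mem_univ _) h

theorem Setting.dt_ne (S : Setting M v A B (Fin r) a b N) : dt v a ≠ 0 := by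
  intro h1
  obtain ⟨y, hy, h2⟩ := Matrix.exists_mulVec_eq_zero_iff.2 h1
  apply hy
  have h3 : ∑ j, y j • v (a j) = 0 := by
    funext i
    have h4 := congrFun h2 i
    rw [Matrix.mulVec, dotProduct] at h4
    rw [Finset.sum_apply]
    rw [← h4]
    refine Finset.sum_congr rfl fun j _ => ?_
    rw [Pi.smul_apply, smul_eq_mul, mul_comm]
    rfl
  funext j
  exact Fintype.linearIndependent_iff.1 S.lA y h3 j

theorem Setting.dt_N (S : Setting M v A B (Fin r) a b N) : dt v a * N.det = dt v b := by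
  have h := det_mul_mix S.hN (Equiv.refl _) Finset.univ
  have h1 : mix (N.submatrix id (Equiv.refl (Fin r)).symm) Finset.univ = N := by
    ext i j
    unfold mix
    rw [if_pos (Finset.mem_univ _)]
    rfl
  rw [h1] at h
  rw [h]
  congr 1
  funext j
  simp

end field

section complex

variable {α : Type*} {M : Matroid α} {r : ℕ} {v : α → Fin r → ℂ} {A B : Set α}
  {a b : Fin r → α} {N : Matrix (Fin r) (Fin r) ℂ}

/-- upper bound for the values -/
theorem Setting.hh_le (S : Setting M v A B (Fin r) a b N) {D : ℝ} (hD0 : 0 ≤ D)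
    (hD : ∀ c d : Fin r → α, Set.range c ∪ Set.range d = M.E →
      ‖dt v c‖ * ‖dt v d‖ ≤ D * (‖dt v a‖ * ‖dt v b‖)) (P Q : Finset (Fin r)) :
    ‖hh N P Q‖ ≤ D * ‖N.det‖ := by
  by_cases h : hh N P Q = 0
  · rw [h, norm_zero]
    positivity
  obtain ⟨σ, -, hσ⟩ := Finset.exists_ne_zero_of_sum_ne_zero h
  have h1 : ∀ j, σ j ∈ P ↔ j ∈ Q := by
    by_contra hcon
    rw [if_neg hcon] at hσ
    exact hσ rfl
  have h2 : cut N P Q = (cut (N.submatrix id σ.symm) P P).submatrix (Equiv.refl _) σ := by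
    ext i j
    rw [Matrix.submatrix_apply]
    unfold cut
    rw [Matrix.submatrix_apply, Equiv.symm_apply_apply]
    simp only [h1 j]
    rfl
  have h3 : ‖hh N P Q‖ = ‖(mix (N.submatrix id σ.symm) P).det‖ *
      ‖(mix (N.submatrix id σ.symm) Pᶜ).det‖ := by
    have e1 : (cut (N.submatrix id σ.symm) P P).submatrix (Equiv.refl _) σ =
        ((cut (N.submatrix id σ.symm) P P).submatrix id σ) := rfl
    rw [hh_eq_det, h2, e1, Matrix.det_permute', det_cut_self, norm_mul, norm_mul]
    rcases Int.units_eq_one_or (Equiv.Perm.sign σ) with e | e <;> simp [e]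
  have hne : 0 < ‖dt v a‖ := norm_pos_iff.2 S.dt_ne
  have h4 := hD (fun j => if j ∈ P then b (σ.symm j) else a j)
    (fun j => if j ∈ Pᶜ then b (σ.symm j) else a j) (by
      rw [← S.hE, ← S.ra, ← S.rb]
      ext x
      constructor
      · rintro (⟨j, rfl⟩ | ⟨j, rfl⟩)
        · by_cases hj : j ∈ P
          · simp only [if_pos hj]
            exact Or.inr ⟨_, rfl⟩
          · simp only [if_neg hj]
            exact Or.inl ⟨_, rfl⟩
        · by_cases hj : j ∈ Pᶜ
          · simp only [if_pos hj]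
            exact Or.inr ⟨_, rfl⟩
          · simp only [if_neg hj]
            exact Or.inl ⟨_, rfl⟩
      · rintro (⟨j, rfl⟩ | ⟨j, rfl⟩)
        · by_cases hj : j ∈ P
          · refine Or.inr ⟨j, ?_⟩
            have : j ∉ Pᶜ := by rw [Finset.mem_compl]; exact not_not.2 hj
            simp only [if_neg this]
          · exact Or.inl ⟨j, by simp only [if_neg hj]⟩
        · by_cases hj : σ j ∈ P
          · refine Or.inl ⟨σ j, ?_⟩
            simp only [if_pos hj, Equiv.symm_apply_apply]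
          · refine Or.inr ⟨σ j, ?_⟩
            have : σ j ∈ Pᶜ := Finset.mem_compl.2 hj
            simp only [if_pos this, Equiv.symm_apply_apply])
  rw [← det_mul_mix S.hN, ← det_mul_mix S.hN, ← S.dt_N, norm_mul, norm_mul, norm_mul] at h4
  rw [h3]
  refine le_of_mul_le_mul_left ?_ (mul_pos hne hne)
  calc ‖dt v a‖ * ‖dt v a‖ * (‖(mix (N.submatrix id σ.symm) P).det‖ *
        ‖(mix (N.submatrix id σ.symm) Pᶜ).det‖) =
      ‖dt v a‖ * ‖(mix (N.submatrix id σ.symm) P).det‖ *
        (‖dt v a‖ * ‖(mix (N.submatrix id σ.symm) Pᶜ).det‖) := by ring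
    _ ≤ D * (‖dt v a‖ * (‖dt v a‖ * ‖N.det‖)) := h4
    _ = ‖dt v a‖ * ‖dt v a‖ * (D * ‖N.det‖) := by ring

/-- all pairs: the path -/
theorem Setting.cplx_walk (S : Setting M v A B (Fin r) a b N) {m : ℕ}
    (hD : ∀ c d : Fin r → α, Set.range c ∪ Set.range d = M.E →
      ‖dt v c‖ * ‖dt v d‖ ≤ 2 ^ m * (‖dt v a‖ * ‖dt v b‖)) :
    ∃ (n : ℕ) (J : ℕ → Set α), n ≤ 2 * r * (r + m + 2) ∧ Walk M A B n J := by
  rcases Nat.eq_zero_or_pos r with h0 | h0
  · subst h0
    have hA : A = ∅ := by rw [← S.ra]; exact Set.range_eq_empty _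
    have hB : B = ∅ := by rw [← S.rb]; exact Set.range_eq_empty _
    have hE : M.E = ∅ := by rw [← S.hE, hA, hB, Set.union_empty]
    refine ⟨0, fun _ => A, Nat.zero_le _, rfl, by rw [hA, hB], fun t _ => ⟨S.hA, ?_⟩,
      fun t ht => by omega⟩
    rw [hE, Set.empty_sdiff, ← hA]
    exact S.hA
  obtain ⟨s, rfl⟩ : ∃ s, r = s + 1 := ⟨r - 1, by omega⟩
  have hdet : 0 < ‖N.det‖ := norm_pos_iff.2 S.det_ne
  -- a real linear form
  obtain ⟨lam, hlam1, hlam2⟩ : ∃ lam : ℂ →+ ℝ, lam N.det = ‖N.det‖ ∧ ∀ x, |lam x| ≤ ‖x‖ := by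
    refine ⟨⟨⟨fun x => ((starRingEnd ℂ N.det) * x).re / ‖N.det‖, ?_⟩, ?_⟩, ?_, ?_⟩
    · simp
    · intro x y
      simp only [mul_add, Complex.add_re, add_div]
    · show ((starRingEnd ℂ N.det) * N.det).re / ‖N.det‖ = ‖N.det‖
      rw [mul_comm, Complex.mul_conj, Complex.ofReal_re, Complex.normSq_eq_norm_sq, sq,
        mul_div_assoc, div_self hdet.ne', mul_one]
    · intro x
      show |((starRingEnd ℂ N.det) * x).re / ‖N.det‖| ≤ ‖x‖
      rw [abs_div, abs_of_pos hdet, div_le_iff₀ hdet]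
      refine (Complex.abs_re_le_norm _).trans ?_
      rw [norm_mul, RCLike.norm_conj, mul_comm]
  have hE : Fintype.card (Fin (s + 1) ⊕ Fin (s + 1)) = 2 * (s + 1) := by
    rw [Fintype.card_sum, Fintype.card_fin]
    ring
  obtain ⟨U, hU⟩ : ∃ U : Finset (Fin (s + 1) ⊕ Fin (s + 1)),
      U = (Finset.univ : Finset (Fin (s + 1))).disjSum ∅ := ⟨_, rfl⟩
  have hUc : Uᶜ = (∅ : Finset (Fin (s + 1))).disjSum Finset.univ := by
    rw [hU]
    ext x
    rcases x with x | x <;> simp
  have hfU : fn N lam U = ‖N.det‖ := by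
    unfold fn
    rw [hU, Finset.toLeft_disjSum, Finset.toRight_disjSum, Finset.compl_univ, hh_empty, hlam1]
    simp
  have hf0 : fn N lam U ≠ 0 := by
    rw [hfU]
    exact hdet.ne'
  -- the bound
  have hbd : ∀ V, (fn N lam V) ^ 2 ≤ 4 ^ m * fn N lam U ^ 2 := by
    intro V
    have h1 := S.hh_le (by positivity) hD V.toLeftᶜ V.toRight
    have h2 : |fn N lam V| ≤ 2 ^ m * ‖N.det‖ := by
      unfold fn
      rw [abs_mul, abs_pow, abs_neg, abs_one, one_pow, one_mul]
      exact (hlam2 _).trans h1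
    rw [hfU, ← sq_abs]
    have h5 : (4 : ℝ) ^ m * ‖N.det‖ ^ 2 = (2 ^ m * ‖N.det‖) ^ 2 := by
      rw [mul_pow, ← pow_mul, mul_comm m 2, pow_mul]
      norm_num
    rw [h5]
    exact pow_le_pow_left₀ (abs_nonneg _) h2 2
  obtain ⟨q, hq⟩ : ∃ q : ℝ, q = ((s : ℝ) + 1) / ((s : ℝ) + 1 + 1) := ⟨_, rfl⟩
  have hq0 : 0 < q := by rw [hq]; positivity
  have hsum : (∑ V, fn N lam V ^ 2) ≤ 4 ^ (s + 1) * (4 ^ m * fn N lam U ^ 2) := by
    refine (Finset.sum_le_card_nsmul _ _ _ fun V _ => hbd V).trans (le_of_eq ?_)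
    rw [Finset.card_univ, Fintype.card_finset, hE, nsmul_eq_mul, pow_mul]
    norm_num
  have hnum : 12 * q ^ (2 * ((s + 1) * (s + 3 + m))) * (4 ^ (s + 1) * 4 ^ m) < 1 := by
    have h1 : q ^ (s + 1) ≤ 1 / 2 := half_pow hq
    have h2 : q ^ (2 * ((s + 1) * (s + 3 + m))) ≤ (1 / 2) ^ (2 * (s + 3 + m)) := by
      have : 2 * ((s + 1) * (s + 3 + m)) = (s + 1) * (2 * (s + 3 + m)) := by ring
      rw [this, pow_mul]
      exact pow_le_pow_left₀ (by positivity) h1 _
    have h3 : (1 / 2 : ℝ) ^ (2 * (s + 3 + m)) * (4 ^ (s + 1) * 4 ^ m) = 1 / 16 := by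
      rw [pow_mul]
      have e1 : (1 / 2 : ℝ) ^ 2 = 1 / 4 := by norm_num
      rw [e1, ← pow_add]
      have e3 : s + 3 + m = (s + 1 + m) + 2 := by ring
      rw [e3, pow_add (1 / 4 : ℝ), mul_right_comm, ← mul_pow]
      norm_num
    calc 12 * q ^ (2 * ((s + 1) * (s + 3 + m))) * (4 ^ (s + 1) * 4 ^ m)
        ≤ 12 * (1 / 2) ^ (2 * (s + 3 + m)) * (4 ^ (s + 1) * 4 ^ m) := by gcongr
      _ = 12 * (1 / 16) := by rw [mul_assoc, h3]
      _ < 1 := by norm_num
  obtain ⟨n, hn, hP⟩ := short_path hE (f := fn N lam)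
    (fun V hV => fn_level N lam (by rwa [Fintype.card_fin])) (fn_dn N lam) (A := U)
    (T := (s + 1) * (s + 3 + m)) hq (by
      have hU2 : 0 < fn N lam U ^ 2 := by positivity
      calc 12 * q ^ (2 * ((s + 1) * (s + 3 + m))) * (∑ V, fn N lam V ^ 2) ≤
            12 * q ^ (2 * ((s + 1) * (s + 3 + m))) * (4 ^ (s + 1) * (4 ^ m * fn N lam U ^ 2)) := by
              gcongr
        _ = 12 * q ^ (2 * ((s + 1) * (s + 3 + m))) * (4 ^ (s + 1) * 4 ^ m) *
            fn N lam U ^ 2 := by ring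
        _ < 1 * fn N lam U ^ 2 := by
              exact mul_lt_mul_of_pos_right hnum hU2
        _ = _ := one_mul _)
  obtain ⟨J, hJ⟩ := S.walk_img hf0 hP
  refine ⟨n, J, ?_, ?_⟩
  · have : 2 * ((s + 1) * (s + 3 + m)) = 2 * (s + 1) * (s + 1 + m + 2) := by ring
    omega
  · have e1 : Sum.elim a b '' (U : Set (Fin (s + 1) ⊕ Fin (s + 1))) = A := by
      rw [hU, ← S.ra]
      ext x
      simp
    have e2 : Sum.elim a b '' ((Uᶜ : Finset _) : Set (Fin (s + 1) ⊕ Fin (s + 1))) = B := by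
      rw [hUc, ← S.rb]
      ext x
      simp
    rw [e1, e2] at hJ
    exact hJ

end complex

/-- the setting of two complementary bases -/
theorem exists_setting_fin {α : Type*} {M : Matroid α} {r : ℕ} {v : α → Fin r → ℂ}
    (hM : ∀ I ⊆ M.E, M.Indep I ↔ LinearIndepOn ℂ v I) {a b : Fin r → α}
    (ha : Function.Injective a) (hA : M.IsBase (Set.range a)) (hB : M.IsBase (Set.range b))
    (hd : Disjoint (Set.range a) (Set.range b)) (hE : Set.range a ∪ Set.range b = M.E) :
    ∃ N : Matrix (Fin r) (Fin r) ℂ, Setting M v (Set.range a) (Set.range b) (Fin r) a b N := by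
  have hb : Function.Injective b := by
    classical
    have h1 : (Set.range a).ncard = (Set.range b).ncard := by
      rw [Set.ncard, Set.ncard, hA.encard_eq_encard_of_isBase hB]
    have h2 : (Set.range a).ncard = r := by
      rw [← Nat.card_coe_set_eq, Nat.card_range_of_injective ha, Nat.card_fin]
    rw [h2] at h1
    have h3 : (Finset.univ.image b).card = (Finset.univ : Finset (Fin r)).card := by
      rw [Finset.card_univ, Fintype.card_fin]
      refine Eq.trans ?_ h1.symm
      rw [← Set.ncard_coe_finset]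
      congr 1
      simp
    exact fun x y hxy => Finset.card_image_iff.1 h3 (Finset.mem_coe.2 (Finset.mem_univ x))
      (Finset.mem_coe.2 (Finset.mem_univ y)) hxy
  have h1 : ∀ j, ∃ c : Fin r → ℂ, ∑ i, c i • v (a i) = v (b j) := by
    intro j
    have h2 := mem_span hM hA (hB.subset_ground (Set.mem_range_self j))
    have h3 : v (b j) ∈ Submodule.span ℂ (Set.range fun i => v (a i)) := by
      rw [show (Set.range fun i => v (a i)) = v '' (Set.range a) by
        rw [← Set.range_comp]; rfl]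
      exact h2
    exact (Submodule.mem_span_range_iff_exists_fun ℂ).1 h3
  choose c hc using h1
  exact ⟨fun i j => c j i, hM, hA, hB, hd, hE, ha, hb, rfl, rfl, fun j => (hc j).symm⟩

theorem dt_ne_zero {α : Type*} {M : Matroid α} {r : ℕ} {v : α → Fin r → ℂ}
    (hM : ∀ I ⊆ M.E, M.Indep I ↔ LinearIndepOn ℂ v I) {a b : Fin r → α}
    (ha : Function.Injective a) (hA : M.IsBase (Set.range a)) (hB : M.IsBase (Set.range b))
    (hd : Disjoint (Set.range a) (Set.range b)) (hE : Set.range a ∪ Set.range b = M.E) :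
    dt v a ≠ 0 ∧ dt v b ≠ 0 := by
  obtain ⟨N, S⟩ := exists_setting_fin hM ha hA hB hd hE
  refine ⟨S.dt_ne, ?_⟩
  rw [← S.dt_N]
  exact mul_ne_zero S.dt_ne S.det_ne

/-- The main theorem. -/
theorem complex_walk {α : Type*} {M : Matroid α} {r : ℕ} {v : α → Fin r → ℂ}
    (hM : ∀ I ⊆ M.E, M.Indep I ↔ LinearIndepOn ℂ v I) {a b : Fin r → α}
    (ha : Function.Injective a) (hA : M.IsBase (Set.range a)) (hB : M.IsBase (Set.range b))
    (hd : Disjoint (Set.range a) (Set.range b)) (hE : Set.range a ∪ Set.range b = M.E) {m : ℕ}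
    (hm : ∀ c d : Fin r → α, Set.range c ∪ Set.range d = M.E →
      ‖dt v c‖ * ‖dt v d‖ ≤ 2 ^ m * (‖dt v a‖ * ‖dt v b‖)) :
    ∃ (n : ℕ) (J : ℕ → Set α), n ≤ 2 * r * (r + m + 2) ∧
      Walk M (Set.range a) (Set.range b) n J := by
  obtain ⟨N, S⟩ := exists_setting_fin hM ha hA hB hd hE
  exact S.cplx_walk hm

end Pool.Agent.Helper36.Swap
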