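import Pool.Agent.Helper36.Swap.Agmon

/-!
# Short paths from a set to its complement in the support
-/

set_option autoImplicit false

namespace Pool.Agent.Helper36.Swap

open Finset

variable {E : Type*} [Fintype E] [DecidableEq E]

/-- one exchange between two sets of the support -/
def Nb (f : Finset E → ℝ) (S S' : Finset E) : Prop :=
  f S ≠ 0 ∧ f S' ≠ 0 ∧ ∃ K : Finset E, ∃ z ∈ Kᶜ, ∃ z' ∈ Kᶜ, z ≠ z' ∧ S = insert z K ∧
    S' = insert z' K

theorem Nb.symm {f : Finset E → ℝ} {S S' : Finset E} (h : Nb f S S') : Nb f S' S := by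
  obtain ⟨h1, h2, K, z, hz, z', hz', hne, h3, h4⟩ := h
  exact ⟨h2, h1, K, z', hz', z, hz, hne.symm, h4, h3⟩

theorem Nb.compl {f : Finset E → ℝ} (hc : ∀ S, f S ≠ 0 → f Sᶜ ≠ 0) {S S' : Finset E}
    (h : Nb f S S') : Nb f Sᶜ S'ᶜ := by
  obtain ⟨h1, h2, K, z, hz, z', hz', hne, rfl, rfl⟩ := h
  refine ⟨hc _ h1, hc _ h2, (Kᶜ.erase z).erase z', z', ?_, z, ?_, hne.symm, ?_, ?_⟩
  · rw [Finset.mem_compl]
    exact Finset.notMem_erase _ _
  · rw [Finset.mem_compl]
    intro h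
    exact Finset.notMem_erase z Kᶜ (Finset.mem_of_mem_erase h)
  · rw [Finset.insert_erase (Finset.mem_erase.2 ⟨hne.symm, hz'⟩), Finset.compl_insert]
  · rw [Finset.erase_right_comm, Finset.insert_erase (Finset.mem_erase.2 ⟨hne, hz⟩),
      Finset.compl_insert]

/-- there is a path of length `n` -/
def Pt (f : Finset E → ℝ) : ℕ → Finset E → Finset E → Prop
  | 0, S, S' => S = S'
  | n + 1, S, S' => ∃ S'', Pt f n S S'' ∧ Nb f S'' S'

theorem Pt.trans {f : Finset E → ℝ} {m n : ℕ} {S S' S'' : Finset E} (h : Pt f m S S')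
    (h' : Pt f n S' S'') : Pt f (m + n) S S'' := by
  induction n generalizing S'' with
  | zero =>
    have h1 : S' = S'' := h'
    rw [← h1]
    exact h
  | succ n ih =>
    obtain ⟨T, h1, h2⟩ := h'
    exact ⟨T, ih h1, h2⟩

theorem Pt.symm {f : Finset E → ℝ} {n : ℕ} {S S' : Finset E} (h : Pt f n S S') :
    Pt f n S' S := by
  induction n generalizing S' with
  | zero => exact Eq.symm h
  | succ n ih =>
    obtain ⟨T, h1, h2⟩ := h
    have h3 : Pt f 1 S' T := ⟨S', rfl, h2.symm⟩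
    have h4 := h3.trans (ih h1)
    rwa [Nat.add_comm] at h4

theorem Pt.compl {f : Finset E → ℝ} (hc : ∀ S, f S ≠ 0 → f Sᶜ ≠ 0) {n : ℕ}
    {S S' : Finset E} (h : Pt f n S S') : Pt f n Sᶜ S'ᶜ := by
  induction n generalizing S' with
  | zero =>
    have h1 : S = S' := h
    rw [h1]
    rfl
  | succ n ih =>
    obtain ⟨T, h1, h2⟩ := h
    exact ⟨Tᶜ, ih h1, h2.compl hc⟩

/-- the ball of radius `t` around `A` -/
def Bl (f : Finset E → ℝ) (A : Finset E) (t : ℕ) (S : Finset E) : Prop := ∃ n ≤ t, Pt f n A S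

open Classical in
/-- the distance from `A`, cut off at `T` -/
noncomputable def dd (f : Finset E → ℝ) (A : Finset E) (T : ℕ) (S : Finset E) : ℕ :=
  ((range T).filter fun t => ¬ Bl f A t S).card

theorem dd_le (f : Finset E → ℝ) (A : Finset E) (T : ℕ) (S : Finset E) : dd f A T S ≤ T := by
  classical
  unfold dd
  refine (Finset.card_filter_le _ _).trans ?_
  rw [Finset.card_range]

theorem dd_self (f : Finset E → ℝ) (A : Finset E) (T : ℕ) : dd f A T A = 0 := by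
  classical
  unfold dd
  rw [Finset.card_eq_zero, Finset.filter_eq_empty_iff]
  intro t _ h
  exact h ⟨0, Nat.zero_le t, rfl⟩

theorem dd_step {f : Finset E → ℝ} {A : Finset E} {T : ℕ} {S S' : Finset E} (h : Nb f S' S) :
    dd f A T S ≤ dd f A T S' + 1 := by
  classical
  unfold dd
  have h1 : (range T).filter (fun t => ¬ Bl f A t S) ⊆
      insert 0 (((range T).filter fun t => ¬ Bl f A t S').image fun t => t + 1) := by
    intro t ht
    rw [Finset.mem_filter, Finset.mem_range] at ht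
    obtain ⟨ht1, ht2⟩ := ht
    rw [Finset.mem_insert]
    rcases Nat.eq_zero_or_pos t with h0 | h0
    · exact Or.inl h0
    right
    rw [Finset.mem_image]
    refine ⟨t - 1, ?_, by omega⟩
    rw [Finset.mem_filter, Finset.mem_range]
    refine ⟨by omega, fun h2 => ht2 ?_⟩
    obtain ⟨n, hn, h3⟩ := h2
    exact ⟨n + 1, by omega, S', h3, h⟩
  refine (Finset.card_le_card h1).trans ?_
  refine (Finset.card_insert_le _ _).trans ?_
  exact Nat.add_le_add_right Finset.card_image_le 1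

theorem bl_of_dd {f : Finset E → ℝ} {A : Finset E} {T : ℕ} {S : Finset E}
    (h : dd f A T S ≠ T) : ∃ n, n + 1 ≤ T ∧ Pt f n A S := by
  classical
  by_contra hcon
  apply h
  unfold dd
  rw [Finset.filter_true_of_mem, Finset.card_range]
  intro t ht h1
  obtain ⟨n, hn, h2⟩ := h1
  have := Finset.mem_range.1 ht
  exact hcon ⟨n, by omega, h2⟩

/-- a short path from `A` to its complement -/
theorem short_path {r : ℕ} (hE : Fintype.card E = 2 * (r + 1)) {f : Finset E → ℝ}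
    (hf : ∀ S, S.card ≠ r + 1 → f S = 0) (hD : ∀ K, dn f K = 0) {A : Finset E}
    {T : ℕ} {q : ℝ} (hq : q = ((r : ℝ) + 1) / ((r : ℝ) + 1 + 1))
    (hT : 12 * q ^ (2 * T) * ∑ S, f S ^ 2 < f A ^ 2) :
    ∃ n, n + 2 ≤ 2 * T ∧ Pt f n A Aᶜ := by
  have hq0 : 0 < q := by rw [hq]; positivity
  have hc : ∀ S, f S ≠ 0 → f Sᶜ ≠ 0 := by
    intro S hS h
    by_cases h1 : S.card = r + 1
    · rw [ker_symm hE hf hD h1] at h
      rcases mul_eq_zero.1 h with h2 | h2
      · exact pow_ne_zero _ (by norm_num) h2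
      · exact hS h2
    · exact hS (hf S h1)
  by_cases hex : ∃ S, f S ≠ 0 ∧ dd f A T S ≠ T ∧ dd f A T Sᶜ ≠ T
  · obtain ⟨S, -, h2, h3⟩ := hex
    obtain ⟨m, hm, h4⟩ := bl_of_dd h2
    obtain ⟨n, hn, h5⟩ := bl_of_dd h3
    have h6 := (h5.compl hc).symm
    rw [compl_compl] at h6
    exact ⟨m + n, by omega, h4.trans h6⟩
  · exfalso
    have hsep : ∀ S, f S ≠ 0 → dd f A T S < T → dd f A T Sᶜ = T := by
      intro S h1 h2
      by_contra h3
      exact hex ⟨S, h1, h2.ne, h3⟩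
    have h1 := agmon hE hf hD (dd_le f A T) (fun K z hz z' hz' h2 h3 => by
      by_cases h4 : z = z'
      · rw [h4]
        exact Nat.le_succ _
      · exact dd_step ⟨h3, h2, K, z', hz', z, hz, fun h => h4 h.symm, rfl, rfl⟩) hsep hq
    have h2 : f A ^ 2 ≤ ∑ S, f S ^ 2 * q ^ (2 * dd f A T S) := by
      have h3 := Finset.single_le_sum (f := fun S => f S ^ 2 * q ^ (2 * dd f A T S))
        (fun S _ => by positivity) (Finset.mem_univ A)
      have h4 : f A ^ 2 * q ^ (2 * dd f A T A) = f A ^ 2 := by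
        rw [dd_self, Nat.mul_zero, pow_zero, mul_one]
      rw [← h4]
      exact h3
    linarith

omit [DecidableEq E] in
/-- the number of sets -/
theorem sum_sq_le {r : ℕ} (hE : Fintype.card E = 2 * (r + 1)) {f : Finset E → ℝ}
    {A : Finset E} (hA : ∀ S, |f S| ≤ |f A|) :
    ∑ S, f S ^ 2 ≤ 4 ^ (r + 1) * f A ^ 2 := by
  have h1 : ∀ S ∈ (Finset.univ : Finset (Finset E)), f S ^ 2 ≤ f A ^ 2 := fun S _ =>
    sq_le_sq.2 (hA S)
  refine (Finset.sum_le_card_nsmul _ _ _ h1).trans (le_of_eq ?_)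
  rw [Finset.card_univ, Fintype.card_finset, hE, nsmul_eq_mul, pow_mul]
  norm_num

theorem half_pow {r : ℕ} {q : ℝ} (hq : q = ((r : ℝ) + 1) / ((r : ℝ) + 1 + 1)) :
    q ^ (r + 1) ≤ 1 / 2 := by
  have h2 : (2 : ℝ) ≤ (1 + 1 / ((r : ℝ) + 1)) ^ (r + 1) := by
    have h3 := one_add_mul_le_pow (a := 1 / ((r : ℝ) + 1)) (by
      have : (0 : ℝ) ≤ 1 / ((r : ℝ) + 1) := by positivity
      linarith) (r + 1)
    refine le_trans (le_of_eq ?_) h3
    push_cast
    field_simp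
    norm_num
  have h3 : q = (1 + 1 / ((r : ℝ) + 1))⁻¹ := by
    rw [hq]
    field_simp
  rw [h3, inv_pow]
  refine (inv_anti₀ (by norm_num) h2).trans (le_of_eq ?_)
  norm_num

theorem numeric (r : ℕ) {q : ℝ} (hq : q = ((r : ℝ) + 1) / ((r : ℝ) + 1 + 1)) :
    12 * q ^ (2 * ((r + 1) * (r + 3))) * 4 ^ (r + 1) < 1 := by
  have hq0 : 0 < q := by rw [hq]; positivity
  have h1 : q ^ (r + 1) ≤ 1 / 2 := half_pow hq
  have h2 : q ^ (2 * ((r + 1) * (r + 3))) ≤ (1 / 2) ^ (2 * (r + 3)) := by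
    have : 2 * ((r + 1) * (r + 3)) = (r + 1) * (2 * (r + 3)) := by ring
    rw [this, pow_mul]
    exact pow_le_pow_left₀ (by positivity) h1 _
  have h3 : (1 / 2 : ℝ) ^ (2 * (r + 3)) * 4 ^ (r + 1) = 1 / 16 := by
    rw [pow_mul]
    have : (1 / 2 : ℝ) ^ 2 = 1 / 4 := by norm_num
    rw [this, pow_add, pow_add (4 : ℝ) r 1, mul_mul_mul_comm, ← mul_pow]
    norm_num
  calc 12 * q ^ (2 * ((r + 1) * (r + 3))) * 4 ^ (r + 1)
      ≤ 12 * (1 / 2) ^ (2 * (r + 3)) * 4 ^ (r + 1) := by gcongr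
    _ = 12 * (1 / 16) := by rw [mul_assoc, h3]
    _ < 1 := by norm_num

/-- Main theorem on functions: from the maximum of `|f|` there is a path of length at most
`2 R (R + 2) - 2` to the complement. -/
theorem main_path {r : ℕ} (hE : Fintype.card E = 2 * (r + 1)) {f : Finset E → ℝ}
    (hf : ∀ S, S.card ≠ r + 1 → f S = 0) (hD : ∀ K, dn f K = 0) {A : Finset E} (hA : f A ≠ 0)
    (hmax : ∀ S, |f S| ≤ |f A|) : ∃ n, n + 2 ≤ 2 * ((r + 1) * (r + 3)) ∧ Pt f n A Aᶜ := by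
  refine short_path hE hf hD (q := ((r : ℝ) + 1) / ((r : ℝ) + 1 + 1)) rfl ?_
  have h1 := numeric r (q := ((r : ℝ) + 1) / ((r : ℝ) + 1 + 1)) rfl
  have h2 := sum_sq_le hE hmax
  have h3 : 0 < f A ^ 2 := by positivity
  calc 12 * (((r : ℝ) + 1) / ((r : ℝ) + 1 + 1)) ^ (2 * ((r + 1) * (r + 3))) * ∑ S, f S ^ 2
      ≤ 12 * (((r : ℝ) + 1) / ((r : ℝ) + 1 + 1)) ^ (2 * ((r + 1) * (r + 3))) *
        (4 ^ (r + 1) * f A ^ 2) := by gcongr
    _ = 12 * (((r : ℝ) + 1) / ((r : ℝ) + 1 + 1)) ^ (2 * ((r + 1) * (r + 3))) *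
        4 ^ (r + 1) * f A ^ 2 := by ring
    _ < 1 * f A ^ 2 := mul_lt_mul_of_pos_right h1 h3
    _ = f A ^ 2 := one_mul _

end Pool.Agent.Helper36.Swap
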