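import Pool.Agent.Helper36.Swap.Rep

/-!
# The final statements on exchange walks
-/

set_option autoImplicit false

namespace Pool.Agent.Helper36.Swap

open Finset

variable {α : Type*} {M : Matroid α} {K : Type*} [Field K] {W : Type*} [AddCommGroup W]
  [Module K W] {v : α → W} {A B : Set α}

/-- a given element is moved by the last exchange only -/
theorem Setting.last {ι : Type*} [Fintype ι] [DecidableEq ι] {a b : ι → α} {N : Matrix ι ι K}
    (S : Setting M v A B ι a b N) (i₀ : ι)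
    (h : (((Fintype.card ι - 1).factorial : ℕ) : K) ≠ 0) :
    ∃ (n : ℕ) (J : ℕ → Set α), Walk M A B n J ∧ ∀ t < n, a i₀ ∈ J t := by
  have hY : ((Finset.univ.erase i₀).card) = Fintype.card ι - 1 := by
    rw [Finset.card_erase_of_mem (Finset.mem_univ _), Finset.card_univ]
  obtain ⟨n, J, Q, hQ, hJ, hk⟩ := S.keep (Finset.univ.erase i₀) (by rw [hY]; exact h)
  have hpos : 0 < Fintype.card ι := Fintype.card_pos_iff.2 ⟨i₀⟩
  obtain ⟨j₀, hj₀⟩ : ∃ j₀, Qᶜ = {j₀} := by
    rw [← Finset.card_eq_one, Finset.card_compl, hQ, hY]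
    omega
  have hQ' : ∀ j, j ∈ Q ↔ j ≠ j₀ := by
    intro j
    rw [← not_iff_not, not_not, ← Finset.mem_compl, hj₀, Finset.mem_singleton]
  have hB : M.IsBase B ∧ M.IsBase (M.E \ B) := by
    refine ⟨S.hB, ?_⟩
    have h1 : M.E \ B = A := by
      rw [← S.hE, Set.union_sdiff_right]
      exact sdiff_eq_left.2 S.hd
    rw [h1]
    exact S.hA
  have haB : ∀ i, a i ∉ B := by
    intro i hi
    rw [← S.rb] at hi
    obtain ⟨j, hj⟩ := hi
    exact S.ab i j hj.symm
  have hbB : ∀ j, b j ∈ B := fun j => by rw [← S.rb]; exact ⟨j, rfl⟩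
  refine ⟨n + 1, _, hJ.snoc hB ⟨a i₀, ?_, b j₀, ?_, ?_⟩, fun t ht => ?_⟩
  · rw [S.a_mem]
    exact Finset.notMem_erase _ _
  · rw [S.b_mem]
    exact fun h1 => (hQ' j₀).1 h1 rfl
  · refine S.ext_set S.hB.subset_ground (Set.insert_subset (S.hB.subset_ground (hbB _))
      (Set.sdiff_subset.trans (S.JJ_subset _))) (fun i => ?_) fun j => ?_
    · constructor
      · intro h1
        exact absurd h1 (haB i)
      · rintro (h1 | ⟨h1, h2⟩)
        · exact absurd h1 (S.ab _ _)
        · exfalso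
          apply h2
          rw [S.a_mem] at h1
          have h3 : i = i₀ := by
            by_contra h4
            exact h1 (Finset.mem_erase.2 ⟨h4, Finset.mem_univ _⟩)
          rw [h3]
          rfl
    · constructor
      · intro _
        by_cases h1 : j = j₀
        · rw [h1]
          exact Set.mem_insert _ _
        · exact Or.inr ⟨(S.b_mem _ _).2 ((hQ' j).2 h1), fun h2 => S.ab _ _ h2.symm⟩
      · intro _
        exact hbB j
  · show a i₀ ∈ (if t ≤ n then J t else B)
    rw [if_pos (by omega)]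
    exact hk t (by omega) i₀ (Finset.notMem_erase _ _)

/-- the setting exists -/
theorem exists_setting (hM : ∀ I ⊆ M.E, M.Indep I ↔ LinearIndepOn K v I)
    (hA : M.IsBase A) (hB : M.IsBase B) (hd : Disjoint A B) (hE : A ∪ B = M.E)
    (hfin : A.Finite) : ∃ (_ : Fintype A) (_ : DecidableEq A) (b : A → α) (N : Matrix A A K),
      Setting M v A B A (fun i => (i : α)) b N := by
  obtain ⟨b, N, h1, h2, h3⟩ := exists_matrix hM hA hB hfin
  let i1 : Fintype A := hfin.fintype
  let i2 : DecidableEq A := Classical.decEq _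
  exact ⟨i1, i2, b, N, ⟨hM, hA, hB, hd, hE, Subtype.val_injective, h1, Subtype.range_coe, h2,
    h3 i1⟩⟩

theorem quadratic_walk [CharZero K] (hM : ∀ I ⊆ M.E, M.Indep I ↔ LinearIndepOn K v I)
    (hA : M.IsBase A) (hB : M.IsBase B) (hd : Disjoint A B) (hE : A ∪ B = M.E)
    (hfin : A.Finite) : ∃ (A' B' : Set α) (n : ℕ) (J : ℕ → Set α), Disjoint A' B' ∧
      A' ∪ B' = M.E ∧ n ≤ 2 * A.ncard * (A.ncard + 2) ∧ Walk M A' B' n J := by
  obtain ⟨h1, h2, b, N, S⟩ := exists_setting hM hA hB hd hE hfin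
  have h3 : Fintype.card A = A.ncard := by
    rw [← Nat.card_eq_fintype_card, Nat.card_coe_set_eq]
  rw [← h3]
  exact S.quadratic

theorem last_walk (hM : ∀ I ⊆ M.E, M.Indep I ↔ LinearIndepOn K v I)
    (hA : M.IsBase A) (hB : M.IsBase B) (hd : Disjoint A B) (hE : A ∪ B = M.E)
    (hfin : A.Finite) (h : (((A.ncard - 1).factorial : ℕ) : K) ≠ 0) {a : α} (ha : a ∈ A) :
    ∃ (n : ℕ) (J : ℕ → Set α), Walk M A B n J ∧ ∀ t < n, a ∈ J t := by
  obtain ⟨h1, h2, b, N, S⟩ := exists_setting hM hA hB hd hE hfin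
  have h3 : Fintype.card A = A.ncard := by
    rw [← Nat.card_eq_fintype_card, Nat.card_coe_set_eq]
  rw [← h3] at h
  exact S.last ⟨a, ha⟩ h

end Pool.Agent.Helper36.Swap
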