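import Pool.Agent.Helper36.Swap.Comp

/-!
# Exchanging two complementary bases of a representable matroid by symmetric exchanges
-/

set_option autoImplicit false

namespace Pool.Agent.Helper36.Swap

open Finset

variable {α : Type*} {M : Matroid α} {K : Type*} [Field K] {W : Type*} [AddCommGroup W]
  [Module K W] {v : α → W}

/-- a sequence of bases `J 0 = A, J 1, …, J n = B` whose complements are bases; two consecutive
ones differ by one exchange -/
def Walk (M : Matroid α) (A B : Set α) (n : ℕ) (J : ℕ → Set α) : Prop :=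
  J 0 = A ∧ J n = B ∧ (∀ t ≤ n, M.IsBase (J t) ∧ M.IsBase (M.E \ J t)) ∧
    ∀ t < n, ∃ x ∈ J t, ∃ y ∉ J t, J (t + 1) = insert y (J t \ {x})

theorem Walk.snoc {A B C : Set α} {n : ℕ} {J : ℕ → Set α} (h : Walk M A B n J)
    (hC : M.IsBase C ∧ M.IsBase (M.E \ C)) (hs : ∃ x ∈ B, ∃ y ∉ B, C = insert y (B \ {x})) :
    Walk M A C (n + 1) (fun t => if t ≤ n then J t else C) := by
  obtain ⟨h1, h2, h3, h4⟩ := h
  refine ⟨?_, ?_, ?_, ?_⟩
  · show (if 0 ≤ n then J 0 else C) = A
    rw [if_pos (Nat.zero_le n), h1]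
  · show (if n + 1 ≤ n then J (n + 1) else C) = C
    rw [if_neg (by omega)]
  · intro t ht
    show M.IsBase (if t ≤ n then J t else C) ∧ M.IsBase (M.E \ (if t ≤ n then J t else C))
    split_ifs with h5
    · exact h3 t h5
    · exact hC
  · intro t ht
    show ∃ x ∈ (if t ≤ n then J t else C), ∃ y ∉ (if t ≤ n then J t else C),
      (if t + 1 ≤ n then J (t + 1) else C) = insert y ((if t ≤ n then J t else C) \ {x})
    rw [if_pos (by omega : t ≤ n)]
    split_ifs with h5
    · exact h4 t (by omega)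
    · obtain rfl : t = n := by omega
      rw [h2]
      exact hs

/-- every vector lies in the span of a basis -/
theorem mem_span (hM : ∀ I ⊆ M.E, M.Indep I ↔ LinearIndepOn K v I) {A : Set α}
    (hA : M.IsBase A) {e : α} (he : e ∈ M.E) : v e ∈ Submodule.span K (v '' A) := by
  by_cases h1 : e ∈ A
  · exact Submodule.subset_span ⟨e, h1, rfl⟩
  by_contra h2
  have h3 : LinearIndepOn K v (insert e A) :=
    (linearIndepOn_insert h1).2 ⟨(hM A hA.subset_ground).1 hA.indep, h2⟩
  have h4 : M.Indep (insert e A) := (hM _ (Set.insert_subset he hA.subset_ground)).2 h3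
  have h5 := hA.eq_of_subset_indep h4 (Set.subset_insert _ _)
  exact h1 (by rw [h5]; exact Set.mem_insert _ _)

/-- the setting: enumerations of `A` and `B` by the same type, and the matrix of `B` in the
basis `A` -/
theorem exists_matrix (hM : ∀ I ⊆ M.E, M.Indep I ↔ LinearIndepOn K v I) {A B : Set α}
    (hA : M.IsBase A) (hB : M.IsBase B) (hfin : A.Finite) :
    ∃ (b : A → α) (N : Matrix A A K), Function.Injective b ∧ Set.range b = B ∧
      (∀ _ : Fintype A, (∀ j, v (b j) = ∑ i : A, N i j • v i)) := by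
  classical
  have hc : A.encard = B.encard := hA.encard_eq_encard_of_isBase hB
  have hBf : B.Finite := by
    rw [← Set.encard_ne_top_iff, ← hc, Set.encard_ne_top_iff]
    exact hfin
  have hn : Nat.card A = Nat.card B := by
    rw [Nat.card_coe_set_eq, Nat.card_coe_set_eq, Set.ncard, Set.ncard, hc]
  have hfA : Finite A := hfin
  have hfB : Finite B := hBf
  obtain ⟨e⟩ : Nonempty (A ≃ B) := Finite.card_eq.1 hn
  let _ : Fintype A := hfin.fintype
  have h1 : ∀ j : A, ∃ c : A → K, ∑ i : A, c i • v i = v (e j) := by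
    intro j
    have h2 := mem_span hM hA (hB.subset_ground (e j).2)
    have h3 : v (e j) ∈ Submodule.span K (Set.range fun i : A => v i) := by
      have h4 : (Set.range fun i : A => v i) = v '' A := by
        ext z
        simp
      rw [h4]
      exact h2
    exact (Submodule.mem_span_range_iff_exists_fun K).1 h3
  choose c hc' using h1
  refine ⟨fun j => e j, fun i j => c j i, ?_, ?_, ?_⟩
  · intro j j' h
    exact e.injective (Subtype.ext h)
  · ext z
    constructor
    · rintro ⟨j, rfl⟩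
      exact (e j).2
    · intro hz
      exact ⟨e.symm ⟨z, hz⟩, by simp⟩
  · intro inst j
    rw [← hc' j]
    exact Finset.sum_congr (by ext; simp) fun _ _ => rfl

/-- all that is used about the matroid -/
structure Setting (M : Matroid α) (v : α → W) (A B : Set α) (ι : Type*) [Fintype ι]
    [DecidableEq ι] (a b : ι → α) (N : Matrix ι ι K) : Prop where
  hM : ∀ I ⊆ M.E, M.Indep I ↔ LinearIndepOn K v I
  hA : M.IsBase A
  hB : M.IsBase B
  hd : Disjoint A B
  hE : A ∪ B = M.E
  ia : Function.Injective a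
  ib : Function.Injective b
  ra : Set.range a = A
  rb : Set.range b = B
  hN : ∀ j, v (b j) = ∑ i, N i j • v (a i)

namespace Setting

variable {A B : Set α} {ι : Type*} [Fintype ι] [DecidableEq ι] {a b : ι → α} {N : Matrix ι ι K}

theorem lA (S : Setting M v A B ι a b N) : LinearIndependent K fun i => v (a i) := by
  have h := (S.hM A S.hA.subset_ground).1 S.hA.indep
  rw [← S.ra] at h
  exact (linearIndepOn_range_iff S.ia v).1 h

theorem lB (S : Setting M v A B ι a b N) : LinearIndependent K fun j => v (b j) := by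
  have h := (S.hM B S.hB.subset_ground).1 S.hB.indep
  rw [← S.rb] at h
  exact (linearIndepOn_range_iff S.ib v).1 h

theorem det_ne (S : Setting M v A B ι a b N) : N.det ≠ 0 := by
  intro h
  obtain ⟨y, hy, h1⟩ := Matrix.exists_mulVec_eq_zero_iff.2 h
  apply hy
  have h2 : ∑ j, y j • v (b j) = 0 := by
    have h3 : ∑ j, y j • v (b j) = ∑ i, (N.mulVec y i) • v (a i) := by
      simp only [S.hN, Finset.smul_sum, smul_smul, Matrix.mulVec, dotProduct, Finset.sum_smul]
      rw [Finset.sum_comm]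
      refine Finset.sum_congr rfl fun i _ => Finset.sum_congr rfl fun j _ => ?_
      rw [mul_comm]
    rw [h3, h1]
    simp
  funext j
  exact Fintype.linearIndependent_iff.1 S.lB y h2 j

theorem JJ_subset (S : Setting M v A B ι a b N) (p : Finset ι × Finset ι) :
    JJ a b p ⊆ M.E := by
  rw [← S.hE, ← S.ra, ← S.rb]
  exact Set.union_subset_union (Set.image_subset_range _ _) (Set.image_subset_range _ _)

theorem ab (S : Setting M v A B ι a b N) (i j : ι) : a i ≠ b j := by
  intro h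
  have h1 : a i ∈ A := by rw [← S.ra]; exact ⟨i, rfl⟩
  have h2 : b j ∈ B := by rw [← S.rb]; exact ⟨j, rfl⟩
  rw [← h] at h2
  exact Set.disjoint_left.1 S.hd h1 h2

theorem a_mem (S : Setting M v A B ι a b N) (p : Finset ι × Finset ι) (i : ι) :
    a i ∈ JJ a b p ↔ i ∉ p.1 := by
  constructor
  · rintro (⟨i', h1, h2⟩ | ⟨j, -, h2⟩)
    · rw [← S.ia h2]
      exact Finset.mem_compl.1 h1
    · exact absurd h2.symm (S.ab i j)
  · intro h
    exact Or.inl ⟨i, Finset.mem_coe.2 (Finset.mem_compl.2 h), rfl⟩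

theorem b_mem (S : Setting M v A B ι a b N) (p : Finset ι × Finset ι) (j : ι) :
    b j ∈ JJ a b p ↔ j ∈ p.2 := by
  constructor
  · rintro (⟨i', h1, h2⟩ | ⟨j', h1, h2⟩)
    · exact absurd h2 (S.ab i' j)
    · rw [← S.ib h2]
      exact h1
  · intro h
    exact Or.inr ⟨j, h, rfl⟩

/-- two subsets of the ground set are equal if they contain the same `a i` and the same `b j` -/
theorem ext_set (S : Setting M v A B ι a b N) {X Y : Set α} (hX : X ⊆ M.E) (hY : Y ⊆ M.E)
    (h1 : ∀ i, a i ∈ X ↔ a i ∈ Y) (h2 : ∀ j, b j ∈ X ↔ b j ∈ Y) : X = Y := by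
  have key : ∀ e ∈ M.E, e ∈ X ↔ e ∈ Y := by
    intro e he
    rw [← S.hE, ← S.ra, ← S.rb] at he
    rcases he with ⟨i, rfl⟩ | ⟨j, rfl⟩
    · exact h1 i
    · exact h2 j
  ext e
  exact ⟨fun h => (key e (hX h)).1 h, fun h => (key e (hY h)).2 h⟩

theorem compl_JJ (S : Setting M v A B ι a b N) (p : Finset ι × Finset ι) :
    M.E \ JJ a b p = JJ a b (p.1ᶜ, p.2ᶜ) := by
  have ha : ∀ i, a i ∈ M.E := fun i => by rw [← S.hE, ← S.ra]; exact Or.inl ⟨i, rfl⟩
  have hb : ∀ j, b j ∈ M.E := fun j => by rw [← S.hE, ← S.rb]; exact Or.inr ⟨j, rfl⟩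
  refine S.ext_set Set.sdiff_subset (S.JJ_subset _) (fun i => ?_) fun j => ?_
  · rw [Set.mem_sdiff, S.a_mem, S.a_mem, Finset.mem_compl]
    exact ⟨fun h => h.2, fun h => ⟨ha i, h⟩⟩
  · rw [Set.mem_sdiff, S.b_mem, S.b_mem, Finset.mem_compl]
    exact ⟨fun h => h.2, fun h => ⟨hb j, h⟩⟩

theorem isBase_JJ (S : Setting M v A B ι a b N) {p : Finset ι × Finset ι}
    (h : hh N p.1 p.2 ≠ 0) : M.IsBase (JJ a b p) := by
  have h1 : M.Indep (JJ a b p) := (S.hM _ (S.JJ_subset p)).2
    (linIndep_JJ S.ia S.ib S.lA S.lB S.hN h)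
  obtain ⟨C, hC, h2⟩ := h1.exists_isBase_superset
  have h3 : C.encard = (Fintype.card ι : ℕ∞) := by
    rw [hC.encard_eq_encard_of_isBase S.hA, ← S.ra, ← Set.image_univ, S.ia.encard_image,
      Set.encard_univ, ENat.card_eq_coe_fintype_card]
  have h4 : (JJ a b p).encard = (Fintype.card ι : ℕ∞) := by
    unfold JJ
    rw [Set.encard_union_eq, S.ia.encard_image, S.ib.encard_image, Set.encard_coe_eq_coe_finsetCard,
      Set.encard_coe_eq_coe_finsetCard, ← Nat.cast_add, ← card_eq_of_hh h,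
      Finset.card_compl_add_card]
    rw [Set.disjoint_left]
    rintro _ ⟨i, -, rfl⟩ ⟨j, -, h5⟩
    exact S.ab i j h5.symm
  have h5 : C.Finite := by
    rw [← Set.encard_ne_top_iff, h3]
    exact ENat.coe_ne_top _
  have h6 : JJ a b p = C := h5.eq_of_subset_of_encard_le' h2 (by rw [h3, h4])
  rw [h6]
  exact hC

theorem good_JJ (S : Setting M v A B ι a b N) {p : Finset ι × Finset ι}
    (h : hh N p.1 p.2 ≠ 0) : M.IsBase (JJ a b p) ∧ M.IsBase (M.E \ JJ a b p) := by
  refine ⟨S.isBase_JJ h, ?_⟩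
  rw [S.compl_JJ]
  apply S.isBase_JJ
  show hh N p.1ᶜ p.2ᶜ ≠ 0
  rw [hh_compl]
  exact h

/-- one step is an exchange -/
theorem exch (S : Setting M v A B ι a b N) {Y : Finset ι} {p q : Finset ι × Finset ι}
    (h : Stp N Y p q) : ∃ x ∈ JJ a b p, ∃ y ∉ JJ a b p, JJ a b q = insert y (JJ a b p \ {x}) := by
  obtain ⟨hne, -, P, Q, -, hp, hq⟩ := h
  have ha : ∀ i, a i ∈ M.E := fun i => by rw [← S.hE, ← S.ra]; exact Or.inl ⟨i, rfl⟩
  have hb : ∀ j, b j ∈ M.E := fun j => by rw [← S.hE, ← S.rb]; exact Or.inr ⟨j, rfl⟩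
  rcases hp with ⟨x, hx, rfl⟩ | ⟨x, hx, rfl⟩ <;> rcases hq with ⟨y, hy, rfl⟩ | ⟨y, hy, rfl⟩
  · have hxy : x ≠ y := fun h => hne (by rw [h])
    refine ⟨a x, (S.a_mem _ _).2 (Finset.notMem_erase _ _), a y, fun h => (S.a_mem _ _).1 h
      (Finset.mem_erase.2 ⟨hxy.symm, hy⟩), ?_⟩
    refine S.ext_set (S.JJ_subset _) (Set.insert_subset (ha y)
      (Set.sdiff_subset.trans (S.JJ_subset _))) (fun i => ?_) fun j => ?_
    · rw [Set.mem_insert_iff, Set.mem_sdiff, Set.mem_singleton_iff, S.a_mem, S.a_mem, S.ia.eq_iff,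
        S.ia.eq_iff, Finset.mem_erase, Finset.mem_erase]
      by_cases h1 : i = y
      · simp [h1]
      · by_cases h2 : i = x
        · rw [h2]
          simp [hx, hxy]
        · simp [h1, h2]
    · rw [Set.mem_insert_iff, Set.mem_sdiff, Set.mem_singleton_iff, S.b_mem, S.b_mem]
      constructor
      · intro h
        exact Or.inr ⟨h, fun h2 => S.ab _ _ h2.symm⟩
      · rintro (h | h)
        · exact absurd h.symm (S.ab _ _)
        · exact h.1
  · refine ⟨a x, (S.a_mem _ _).2 (Finset.notMem_erase _ _), b y, fun h =>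
      Finset.mem_compl.1 hy ((S.b_mem _ _).1 h), ?_⟩
    refine S.ext_set (S.JJ_subset _) (Set.insert_subset (hb y)
      (Set.sdiff_subset.trans (S.JJ_subset _))) (fun i => ?_) fun j => ?_
    · rw [Set.mem_insert_iff, Set.mem_sdiff, Set.mem_singleton_iff, S.a_mem, S.a_mem, S.ia.eq_iff,
        Finset.mem_erase]
      have h1 : a i ≠ b y := S.ab _ _
      by_cases h2 : i = x
      · rw [h2]
        simp [hx, S.ab]
      · simp [h1, h2]
    · rw [Set.mem_insert_iff, Set.mem_sdiff, Set.mem_singleton_iff, S.b_mem, S.b_mem, S.ib.eq_iff,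
        Finset.mem_insert]
      have h1 : b j ≠ a x := fun h => S.ab _ _ h.symm
      simp [h1]
  · refine ⟨b x, (S.b_mem _ _).2 (Finset.mem_insert_self _ _), a y, fun h =>
      (S.a_mem _ _).1 h hy, ?_⟩
    refine S.ext_set (S.JJ_subset _) (Set.insert_subset (ha y)
      (Set.sdiff_subset.trans (S.JJ_subset _))) (fun i => ?_) fun j => ?_
    · rw [Set.mem_insert_iff, Set.mem_sdiff, Set.mem_singleton_iff, S.a_mem, S.a_mem, S.ia.eq_iff,
        Finset.mem_erase]
      have h1 : a i ≠ b x := S.ab _ _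
      by_cases h2 : i = y
      · simp [h2]
      · simp [h1, h2]
    · rw [Set.mem_insert_iff, Set.mem_sdiff, Set.mem_singleton_iff, S.b_mem, S.b_mem, S.ib.eq_iff,
        Finset.mem_insert]
      have h1 : b j ≠ a y := fun h => S.ab _ _ h.symm
      by_cases h2 : j = x
      · rw [h2]
        have h3 : b x ≠ a y := fun h => S.ab y x h.symm
        simp [Finset.mem_compl.1 hx, h3]
      · simp [h1, h2]
  · have hxy : x ≠ y := fun h => hne (by rw [h])
    refine ⟨b x, (S.b_mem _ _).2 (Finset.mem_insert_self _ _), b y, fun h => ?_, ?_⟩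
    · rcases Finset.mem_insert.1 ((S.b_mem _ _).1 h) with h1 | h1
      · exact hxy h1.symm
      · exact Finset.mem_compl.1 hy h1
    refine S.ext_set (S.JJ_subset _) (Set.insert_subset (hb y)
      (Set.sdiff_subset.trans (S.JJ_subset _))) (fun i => ?_) fun j => ?_
    · rw [Set.mem_insert_iff, Set.mem_sdiff, Set.mem_singleton_iff, S.a_mem, S.a_mem]
      have h1 : a i ≠ b x := S.ab _ _
      have h2 : a i ≠ b y := S.ab _ _
      simp [h1, h2]
    · rw [Set.mem_insert_iff, Set.mem_sdiff, Set.mem_singleton_iff, S.b_mem, S.b_mem, S.ib.eq_iff,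
        S.ib.eq_iff, Finset.mem_insert, Finset.mem_insert]
      by_cases h2 : j = x
      · rw [h2]
        simp [Finset.mem_compl.1 hx, hxy]
      · simp [h2]

theorem JJ_empty (S : Setting M v A B ι a b N) : JJ a b (∅, ∅) = A := by
  refine S.ext_set (S.JJ_subset _) (by rw [← S.hE]; exact Set.subset_union_left) (fun i => ?_)
    fun j => ?_
  · rw [S.a_mem, ← S.ra]
    simp
  · rw [S.b_mem]
    have h1 : b j ∉ A := fun h => by
      rw [← S.ra] at h
      obtain ⟨i, hi⟩ := h
      exact S.ab i j hi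
    simp [h1]

/-- a walk from `A` along a chain of nodes -/
theorem walk (S : Setting M v A B ι a b N) {Y : Finset ι} {q : Finset ι × Finset ι}
    (h : Relation.ReflTransGen (Stp N Y) (∅, ∅) q) :
    ∃ (n : ℕ) (J : ℕ → Set α), Walk M A (JJ a b q) n J ∧ ∀ t ≤ n, ∀ i ∉ Y, a i ∈ J t := by
  induction h with
  | refl =>
    refine ⟨0, fun _ => A, ⟨rfl, S.JJ_empty.symm, fun t _ => ⟨S.hA, ?_⟩, fun t ht => by omega⟩,
      fun t _ i _ => ?_⟩
    · have h1 := (S.good_JJ (p := (∅, ∅)) (by
        show hh N ∅ ∅ ≠ 0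
        rw [hh_empty]
        exact S.det_ne)).2
      rw [S.JJ_empty] at h1
      exact h1
    · show a i ∈ A
      rw [← S.ra]
      exact ⟨i, rfl⟩
  | @tail p q h1 h2 ih =>
    obtain ⟨n, J, hJ, hY⟩ := ih
    refine ⟨n + 1, fun t => if t ≤ n then J t else JJ a b q,
      hJ.snoc (S.good_JJ h2.2.1) (S.exch h2), fun t ht i hi => ?_⟩
    show a i ∈ (if t ≤ n then J t else JJ a b q)
    split_ifs with h3
    · exact hY t h3 i hi
    · rw [S.a_mem]
      obtain ⟨-, -, P, Q, hP, -, h4⟩ := h2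
      rcases h4 with ⟨x, -, rfl⟩ | ⟨x, -, rfl⟩
      · exact fun h5 => hi (hP (Finset.mem_of_mem_erase h5))
      · exact fun h5 => hi (hP h5)

/-- all elements of `A` outside `X` can be exchanged, while `X` is kept -/
theorem keep (S : Setting M v A B ι a b N) (Y : Finset ι)
    (hY : ((Y.card.factorial : ℕ) : K) ≠ 0) :
    ∃ (n : ℕ) (J : ℕ → Set α) (Q : Finset ι), Q.card = Y.card ∧ Walk M A (JJ a b (Y, Q)) n J ∧
      ∀ t ≤ n, ∀ i ∉ Y, a i ∈ J t := by
  obtain ⟨Q, hQ⟩ := component N Y hY S.det_ne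
  obtain ⟨n, J, h1, h2⟩ := S.walk hQ
  exact ⟨n, J, Q, (card_eq_of_hh (reach_ne S.det_ne hQ)).symm, h1, h2⟩

end Setting

end Pool.Agent.Helper36.Swap
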