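import Mathlib

/-!
# Signed permutation sums and their components

`N` is a square matrix over a field.  `hh N P Q` is the sum of the terms of the determinant of `N`
over the permutations which map `Q` onto `P`.
-/

set_option autoImplicit false

namespace Pool.Agent.Helper36.Swap

open Finset Equiv

variable {ι : Type*} [Fintype ι] [DecidableEq ι] {K : Type*} [Field K]

/-- the term of the determinant of `N` which belongs to `σ` -/
noncomputable def term (N : Matrix ι ι K) (σ : Perm ι) : K :=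
  ((Perm.sign σ : ℤ) : K) * ∏ j, N (σ j) j

open Classical in
/-- the sum over the permutations with `σ Q = P` -/
noncomputable def hh (N : Matrix ι ι K) (P Q : Finset ι) : K :=
  ∑ σ : Perm ι, if ∀ j, σ j ∈ P ↔ j ∈ Q then term N σ else 0

open Classical in
/-- the matrix with the entries outside `P × Q ∪ Pᶜ × Qᶜ` replaced by zero -/
noncomputable def cut (N : Matrix ι ι K) (P Q : Finset ι) : Matrix ι ι K :=
  fun i j => if (i ∈ P ↔ j ∈ Q) then N i j else 0

theorem hh_eq_det (N : Matrix ι ι K) (P Q : Finset ι) : hh N P Q = (cut N P Q).det := by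
  classical
  rw [Matrix.det_apply']
  unfold hh
  refine Finset.sum_congr rfl fun σ _ => ?_
  split_ifs with h
  · unfold term
    congr 1
    refine Finset.prod_congr rfl fun j _ => ?_
    unfold cut
    rw [if_pos (h j)]
  · push Not at h
    symm
    obtain ⟨j, hj⟩ := h
    refine mul_eq_zero_of_right _ (Finset.prod_eq_zero (Finset.mem_univ j) ?_)
    unfold cut
    rw [if_neg]
    intro h2
    rcases hj with ⟨h3, h4⟩ | ⟨h3, h4⟩
    · exact h4 (h2.1 h3)
    · exact h3 (h2.2 h4)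

theorem hh_compl (N : Matrix ι ι K) (P Q : Finset ι) : hh N Pᶜ Qᶜ = hh N P Q := by
  unfold hh
  refine Finset.sum_congr rfl fun σ _ => ?_
  have h : (∀ j, σ j ∈ Pᶜ ↔ j ∈ Qᶜ) ↔ ∀ j, σ j ∈ P ↔ j ∈ Q := by
    refine forall_congr' fun j => ?_
    rw [Finset.mem_compl, Finset.mem_compl, not_iff_not]
  simp only [h]

theorem hh_empty (N : Matrix ι ι K) : hh N ∅ ∅ = N.det := by
  rw [hh_eq_det]
  have h : cut N ∅ ∅ = N := by
    ext i j
    unfold cut
    simp
  rw [h]

theorem card_eq_of_hh {N : Matrix ι ι K} {P Q : Finset ι} (h : hh N P Q ≠ 0) :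
    P.card = Q.card := by
  classical
  obtain ⟨σ, -, hσ⟩ := Finset.exists_ne_zero_of_sum_ne_zero h
  have h1 : ∀ j, σ j ∈ P ↔ j ∈ Q := by
    by_contra hcon
    rw [if_neg hcon] at hσ
    exact hσ rfl
  symm
  refine Finset.card_bij (fun j _ => σ j) (fun j hj => (h1 j).2 hj)
    (fun j _ j' _ hjj => σ.injective hjj) fun i hi => ⟨σ.symm i, ?_, σ.apply_symm_apply i⟩
  rw [← h1, σ.apply_symm_apply]
  exact hi

/-- the relation at a half node -/
theorem half_node (N : Matrix ι ι K) (P Q : Finset ι) :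
    ∑ x ∈ P, hh N (P.erase x) Q = ∑ y ∈ Qᶜ, hh N P (insert y Q) := by
  classical
  unfold hh
  rw [Finset.sum_comm, Finset.sum_comm (s := Qᶜ)]
  refine Finset.sum_congr rfl fun σ _ => ?_
  have h1 : ∑ x ∈ P, (if ∀ j, σ j ∈ P.erase x ↔ j ∈ Q then term N σ else 0) =
      ∑ y, if σ y ∈ P then (if ∀ j, σ j ∈ P.erase (σ y) ↔ j ∈ Q then term N σ else 0) else 0 := by
    rw [Equiv.sum_comp σ (fun x => if x ∈ P then
      (if ∀ j, σ j ∈ P.erase x ↔ j ∈ Q then term N σ else 0) else 0), Finset.sum_ite_mem,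
      Finset.univ_inter]
  have h2 : ∑ y ∈ Qᶜ, (if ∀ j, σ j ∈ P ↔ j ∈ insert y Q then term N σ else 0) =
      ∑ y, if y ∈ Qᶜ then (if ∀ j, σ j ∈ P ↔ j ∈ insert y Q then term N σ else 0) else 0 := by
    rw [Finset.sum_ite_mem, Finset.univ_inter]
  rw [h1, h2]
  refine Finset.sum_congr rfl fun y _ => ?_
  by_cases hc : σ y ∈ P ∧ ∀ j, σ j ∈ P.erase (σ y) ↔ j ∈ Q
  · obtain ⟨h3, h4⟩ := hc
    have h5 : y ∈ Qᶜ := by
      rw [Finset.mem_compl, ← h4 y]
      exact Finset.notMem_erase _ _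
    have h6 : ∀ j, σ j ∈ P ↔ j ∈ insert y Q := by
      intro j
      rw [Finset.mem_insert, ← h4 j, Finset.mem_erase]
      constructor
      · intro h7
        by_cases h8 : j = y
        · exact Or.inl h8
        · exact Or.inr ⟨fun h9 => h8 (σ.injective h9), h7⟩
      · rintro (h7 | h7)
        · rw [h7]
          exact h3
        · exact h7.2
    rw [if_pos h3, if_pos h4, if_pos h5, if_pos h6]
  · have h3 : ¬ (y ∈ Qᶜ ∧ ∀ j, σ j ∈ P ↔ j ∈ insert y Q) := by
      rintro ⟨h4, h5⟩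
      refine hc ⟨(h5 y).2 (Finset.mem_insert_self _ _), fun j => ?_⟩
      rw [Finset.mem_erase, h5 j, Finset.mem_insert]
      rw [Finset.mem_compl] at h4
      constructor
      · rintro ⟨h6, h7 | h7⟩
        · exact absurd (congrArg σ h7) h6
        · exact h7
      · intro h6
        refine ⟨fun h7 => h4 ?_, Or.inr h6⟩
        rw [← σ.injective h7]
        exact h6
    have h4 : (if σ y ∈ P then (if ∀ j, σ j ∈ P.erase (σ y) ↔ j ∈ Q then term N σ else 0)
        else 0) = 0 := by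
      by_cases h5 : σ y ∈ P
      · rw [if_pos h5, if_neg fun h6 => hc ⟨h5, h6⟩]
      · rw [if_neg h5]
    have h5 : (if y ∈ Qᶜ then (if ∀ j, σ j ∈ P ↔ j ∈ insert y Q then term N σ else 0)
        else 0) = 0 := by
      by_cases h6 : y ∈ Qᶜ
      · rw [if_pos h6, if_neg fun h7 => h3 ⟨h6, h7⟩]
      · rw [if_neg h6]
    rw [h4, h5]

omit [Fintype ι] in
/-- double counting of the pairs `(P', x)`, `x ∈ P'`, and `(P, x)`, `x ∉ P` -/
theorem sum_pairs {β : Type*} [AddCommMonoid β] (Y : Finset ι) (j : ℕ)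
    (f : Finset ι → ι → β) :
    ∑ P ∈ powersetCard (j + 1) Y, ∑ x ∈ P, f P x =
      ∑ P ∈ powersetCard j Y, ∑ x ∈ Y \ P, f (insert x P) x := by
  rw [Finset.sum_sigma', Finset.sum_sigma']
  refine Finset.sum_bij' (fun p _ => ⟨p.1.erase p.2, p.2⟩) (fun p _ => ⟨insert p.2 p.1, p.2⟩)
    ?_ ?_ ?_ ?_ ?_
  · rintro ⟨P, x⟩ h
    rw [Finset.mem_sigma, Finset.mem_powersetCard] at h
    obtain ⟨⟨h1, h2⟩, h3⟩ := h
    rw [Finset.mem_sigma, Finset.mem_powersetCard, Finset.mem_sdiff]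
    refine ⟨⟨(Finset.erase_subset _ _).trans h1, ?_⟩, h1 h3, Finset.notMem_erase _ _⟩
    show (P.erase x).card = j
    rw [Finset.card_erase_of_mem h3, h2]
    rfl
  · rintro ⟨P, x⟩ h
    rw [Finset.mem_sigma, Finset.mem_powersetCard, Finset.mem_sdiff] at h
    obtain ⟨⟨h1, h2⟩, h3, h4⟩ := h
    rw [Finset.mem_sigma, Finset.mem_powersetCard]
    refine ⟨⟨Finset.insert_subset h3 h1, ?_⟩, Finset.mem_insert_self _ _⟩
    show (insert x P).card = j + 1
    rw [Finset.card_insert_of_notMem h4, h2]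
  · rintro ⟨P, x⟩ h
    rw [Finset.mem_sigma] at h
    show (⟨insert x (P.erase x), x⟩ : (_ : Finset ι) × ι) = ⟨P, x⟩
    rw [Finset.insert_erase h.2]
  · rintro ⟨P, x⟩ h
    rw [Finset.mem_sigma, Finset.mem_sdiff] at h
    show (⟨(insert x P).erase x, x⟩ : (_ : Finset ι) × ι) = ⟨P, x⟩
    rw [Finset.erase_insert h.2.2]
  · rintro ⟨P, x⟩ h
    rw [Finset.mem_sigma] at h
    show f P x = f (insert x (P.erase x)) x
    rw [Finset.insert_erase h.2]

/-- A function on pairs of sets of the same size which satisfies the relations at the half nodes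
`(P, Q)`, `P ⊆ Y`: the sums over the levels are proportional to the binomial coefficients. -/
theorem level (Y : Finset ι) (F : Finset ι → Finset ι → K)
    (hF : ∀ P Q, P ⊆ Y → ∑ x ∈ P, F (P.erase x) Q = ∑ y ∈ Qᶜ, F P (insert y Q)) (j : ℕ) :
    ((Y.card - j : ℕ) : K) * ∑ P ∈ powersetCard j Y, ∑ Q ∈ powersetCard j univ, F P Q =
      ((j + 1 : ℕ) : K) *
        ∑ P ∈ powersetCard (j + 1) Y, ∑ Q ∈ powersetCard (j + 1) univ, F P Q := by
  have h1 : ∑ P ∈ powersetCard (j + 1) Y, ∑ Q ∈ powersetCard j univ, ∑ x ∈ P, F (P.erase x) Q =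
      ∑ P ∈ powersetCard (j + 1) Y, ∑ Q ∈ powersetCard j univ, ∑ y ∈ Qᶜ, F P (insert y Q) := by
    refine Finset.sum_congr rfl fun P hP => Finset.sum_congr rfl fun Q _ => ?_
    exact hF P Q (Finset.mem_powersetCard.1 hP).1
  have h2 : ∑ P ∈ powersetCard (j + 1) Y, ∑ Q ∈ powersetCard j univ, ∑ x ∈ P, F (P.erase x) Q =
      ((Y.card - j : ℕ) : K) * ∑ P ∈ powersetCard j Y, ∑ Q ∈ powersetCard j univ, F P Q := by
    have e1 : ∀ P ∈ powersetCard (j + 1) Y,
        ∑ Q ∈ powersetCard j univ, ∑ x ∈ P, F (P.erase x) Q =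
        ∑ x ∈ P, ∑ Q ∈ powersetCard j univ, F (P.erase x) Q := fun P _ => Finset.sum_comm
    rw [Finset.sum_congr rfl e1, sum_pairs Y j fun P x =>
      ∑ Q ∈ powersetCard j univ, F (P.erase x) Q, Finset.mul_sum]
    refine Finset.sum_congr rfl fun P hP => ?_
    have e2 : ∀ x ∈ Y \ P, ∑ Q ∈ powersetCard j univ, F ((insert x P).erase x) Q =
        ∑ Q ∈ powersetCard j univ, F P Q := fun x hx => by
      rw [Finset.erase_insert (Finset.mem_sdiff.1 hx).2]
    obtain ⟨e3, e4⟩ := Finset.mem_powersetCard.1 hP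
    rw [Finset.sum_congr rfl e2, Finset.sum_const, nsmul_eq_mul, Finset.card_sdiff_of_subset e3,
      e4]
  have h3 : ∑ P ∈ powersetCard (j + 1) Y, ∑ Q ∈ powersetCard j univ,
      ∑ y ∈ Qᶜ, F P (insert y Q) = ((j + 1 : ℕ) : K) *
        ∑ P ∈ powersetCard (j + 1) Y, ∑ Q ∈ powersetCard (j + 1) univ, F P Q := by
    rw [Finset.mul_sum]
    refine Finset.sum_congr rfl fun P _ => ?_
    have e1 := sum_pairs (univ : Finset ι) j fun Q _ => F P Q
    simp only [Finset.sum_const, nsmul_eq_mul] at e1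
    rw [Finset.mul_sum]
    have e2 : ∀ Q ∈ powersetCard (j + 1) (univ : Finset ι), ((Q.card : ℕ) : K) * F P Q =
        ((j + 1 : ℕ) : K) * F P Q := fun Q hQ => by
      rw [(Finset.mem_powersetCard.1 hQ).2]
    rw [← Finset.sum_congr rfl e2, e1]
    refine Finset.sum_congr rfl fun Q _ => ?_
    rw [← Finset.compl_eq_univ_sdiff]
  rw [← h2, h1, h3]

/-- The sum over the top level. -/
theorem level_top (Y : Finset ι) (F : Finset ι → Finset ι → K)
    (hF : ∀ P Q, P ⊆ Y → ∑ x ∈ P, F (P.erase x) Q = ∑ y ∈ Qᶜ, F P (insert y Q))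
    (hY : ((Y.card.factorial : ℕ) : K) ≠ 0) (h0 : F ∅ ∅ ≠ 0) :
    ∃ Q : Finset ι, F Y Q ≠ 0 := by
  obtain ⟨S, hS⟩ : ∃ S : ℕ → K, ∀ j, S j = ∑ P ∈ powersetCard j Y,
      ∑ Q ∈ powersetCard j univ, F P Q := ⟨_, fun j => rfl⟩
  have h1 : ∀ j, j ≤ Y.card → ((j.factorial : ℕ) : K) * S j =
      ((Y.card.descFactorial j : ℕ) : K) * S 0 := by
    intro j
    induction j with
    | zero =>
      intro _
      simp
    | succ j ih =>
      intro hj
      have e1 := level Y F hF j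
      rw [← hS, ← hS] at e1
      have e2 := ih (by omega)
      rw [Nat.factorial_succ, Nat.descFactorial_succ]
      push_cast [Nat.cast_mul]
      calc ((j : K) + 1) * ((j.factorial : ℕ) : K) * S (j + 1) =
          ((j.factorial : ℕ) : K) * (((j + 1 : ℕ) : K) * S (j + 1)) := by push_cast; ring
        _ = ((j.factorial : ℕ) : K) * (((Y.card - j : ℕ) : K) * S j) := by rw [e1]
        _ = ((Y.card - j : ℕ) : K) * (((j.factorial : ℕ) : K) * S j) := by ring
        _ = ((Y.card - j : ℕ) : K) * (((Y.card.descFactorial j : ℕ) : K) * S 0) := by rw [e2]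
        _ = _ := by ring
  have h2 := h1 Y.card le_rfl
  rw [Nat.descFactorial_self] at h2
  have h3 : S Y.card = S 0 := mul_left_cancel₀ hY h2
  have h4 : S 0 = F ∅ ∅ := by
    rw [hS, Finset.powersetCard_zero, Finset.sum_singleton, Finset.powersetCard_zero,
      Finset.sum_singleton]
  have h5 : ∑ Q ∈ powersetCard Y.card univ, F Y Q ≠ 0 := by
    rw [hS Y.card, Finset.powersetCard_self, Finset.sum_singleton] at h3
    rw [h3, h4]
    exact h0
  obtain ⟨Q, -, hQ⟩ := Finset.exists_ne_zero_of_sum_ne_zero h5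
  exact ⟨Q, hQ⟩

end Pool.Agent.Helper36.Swap
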