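import Pool.Agent.Helper36.Swap.Main
import Pool.Agent.Helper36.Swap.Dist

/-!
# Matroids representable in characteristic zero: a closed walk of quadratic length
-/

set_option autoImplicit false

namespace Pool.Agent.Helper36.Swap

open Finset

section fn

variable {ι : Type*} [Fintype ι] [DecidableEq ι] {K : Type*} [Field K]

/-- the real function on the subsets of `ι ⊕ ι` -/
noncomputable def fn (N : Matrix ι ι K) (lam : K →+ ℝ) (S : Finset (ι ⊕ ι)) : ℝ :=
  (-1) ^ S.toRight.card * lam (hh N S.toLeftᶜ S.toRight)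

theorem fn_level (N : Matrix ι ι K) (lam : K →+ ℝ) {S : Finset (ι ⊕ ι)}
    (hS : S.card ≠ Fintype.card ι) : fn N lam S = 0 := by
  unfold fn
  have h1 : hh N S.toLeftᶜ S.toRight = 0 := by
    by_contra h
    have h2 := card_eq_of_hh h
    rw [Finset.card_compl] at h2
    have h3 := Finset.card_toLeft_add_card_toRight (u := S)
    have h4 := Finset.card_le_univ S.toLeft
    omega
  rw [h1, map_zero, mul_zero]

theorem fn_dn (N : Matrix ι ι K) (lam : K →+ ℝ) (U : Finset (ι ⊕ ι)) : dn (fn N lam) U = 0 := by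
  have h0 : dn (fn N lam) U = ∑ z, if z ∈ Uᶜ then fn N lam (insert z U) else 0 := by
    unfold dn
    rw [Finset.sum_ite_mem, Finset.univ_inter]
  have h1 : ∑ x : ι, (if Sum.inl x ∈ Uᶜ then fn N lam (insert (Sum.inl x) U) else 0) =
      (-1) ^ U.toRight.card * lam (∑ x ∈ U.toLeftᶜ, hh N (U.toLeftᶜ.erase x) U.toRight) := by
    have e1 : ∀ x : ι, (if Sum.inl x ∈ Uᶜ then fn N lam (insert (Sum.inl x) U) else 0) =
        if x ∈ U.toLeftᶜ then (-1) ^ U.toRight.card * lam (hh N (U.toLeftᶜ.erase x) U.toRight)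
          else 0 := by
      intro x
      have e2 : Sum.inl x ∈ Uᶜ ↔ x ∈ U.toLeftᶜ := by
        rw [Finset.mem_compl, Finset.mem_compl, Finset.mem_toLeft]
      by_cases h : x ∈ U.toLeftᶜ
      · rw [if_pos h, if_pos (e2.2 h)]
        unfold fn
        rw [Finset.toLeft_insert_inl, Finset.toRight_insert_inl, Finset.compl_insert]
      · rw [if_neg h, if_neg fun h' => h (e2.1 h')]
    rw [Finset.sum_congr rfl fun x _ => e1 x, Finset.sum_ite_mem, Finset.univ_inter, map_sum,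
      Finset.mul_sum]
  have h2 : ∑ y : ι, (if Sum.inr y ∈ Uᶜ then fn N lam (insert (Sum.inr y) U) else 0) =
      -((-1) ^ U.toRight.card * lam (∑ y ∈ U.toRightᶜ, hh N U.toLeftᶜ (insert y U.toRight))) := by
    have e1 : ∀ y : ι, (if Sum.inr y ∈ Uᶜ then fn N lam (insert (Sum.inr y) U) else 0) =
        if y ∈ U.toRightᶜ then -((-1) ^ U.toRight.card *
          lam (hh N U.toLeftᶜ (insert y U.toRight))) else 0 := by
      intro y
      have e2 : Sum.inr y ∈ Uᶜ ↔ y ∈ U.toRightᶜ := by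
        rw [Finset.mem_compl, Finset.mem_compl, Finset.mem_toRight]
      by_cases h : y ∈ U.toRightᶜ
      · rw [if_pos h, if_pos (e2.2 h)]
        unfold fn
        rw [Finset.toLeft_insert_inr, Finset.toRight_insert_inr,
          Finset.card_insert_of_notMem (Finset.mem_compl.1 h), pow_succ]
        ring
      · rw [if_neg h, if_neg fun h' => h (e2.1 h')]
    rw [Finset.sum_congr rfl fun y _ => e1 y, Finset.sum_ite_mem, Finset.univ_inter, map_sum,
      Finset.mul_sum, ← Finset.sum_neg_distrib]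
  rw [h0, Fintype.sum_sum_type, h1, h2, half_node, add_neg_cancel]

end fn

/-- in characteristic zero there is an additive functional which does not vanish at a given
nonzero element -/
theorem exists_lam {K : Type*} [Field K] [CharZero K] {x : K} (hx : x ≠ 0) :
    ∃ lam : K →+ ℝ, lam x ≠ 0 := by
  have h1 : ∃ φ : Module.Dual ℚ K, φ x ≠ 0 := by
    by_contra hcon
    push Not at hcon
    exact hx ((Module.forall_dual_apply_eq_zero_iff ℚ x).1 hcon)
  obtain ⟨φ, hφ⟩ := h1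
  refine ⟨(Rat.castHom ℝ).toAddMonoidHom.comp φ.toAddMonoidHom, ?_⟩
  show ((φ x : ℚ) : ℝ) ≠ 0
  exact_mod_cast hφ

namespace Setting

variable {α : Type*} {M : Matroid α} {K : Type*} [Field K] {W : Type*} [AddCommGroup W]
  [Module K W] {v : α → W}
  {A B : Set α} {ι : Type*} [Fintype ι] [DecidableEq ι] {a b : ι → α} {N : Matrix ι ι K}

theorem elim_inj (S : Setting M v A B ι a b N) : Function.Injective (Sum.elim a b) := by
  rintro (i | i) (j | j) h
  · rw [S.ia h]
  · exact absurd h (S.ab i j)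
  · exact absurd h.symm (S.ab j i)
  · rw [S.ib h]

theorem JJ_eq (a b : ι → α) (U : Finset (ι ⊕ ι)) :
    JJ a b (U.toLeftᶜ, U.toRight) = Sum.elim a b '' (U : Set (ι ⊕ ι)) := by
  unfold JJ
  rw [compl_compl]
  ext e
  constructor
  · rintro (⟨i, hi, rfl⟩ | ⟨j, hj, rfl⟩)
    · exact ⟨Sum.inl i, Finset.mem_toLeft.1 hi, rfl⟩
    · exact ⟨Sum.inr j, Finset.mem_toRight.1 hj, rfl⟩
  · rintro ⟨z | z, hz, rfl⟩
    · exact Or.inl ⟨z, Finset.mem_toLeft.2 hz, rfl⟩
    · exact Or.inr ⟨z, Finset.mem_toRight.2 hz, rfl⟩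

theorem good_img (S : Setting M v A B ι a b N) {lam : K →+ ℝ} {U : Finset (ι ⊕ ι)}
    (h : fn N lam U ≠ 0) : M.IsBase (Sum.elim a b '' (U : Set (ι ⊕ ι))) ∧
      M.IsBase (M.E \ Sum.elim a b '' (U : Set (ι ⊕ ι))) := by
  rw [← JJ_eq]
  refine S.good_JJ fun h1 => h ?_
  unfold fn
  have h2 : hh N U.toLeftᶜ U.toRight = 0 := h1
  rw [h2, map_zero, mul_zero]

theorem exch_img (S : Setting M v A B ι a b N) {lam : K →+ ℝ} {U U' : Finset (ι ⊕ ι)}
    (h : Nb (fn N lam) U U') : ∃ x ∈ Sum.elim a b '' (U : Set (ι ⊕ ι)),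
      ∃ y ∉ Sum.elim a b '' (U : Set (ι ⊕ ι)), Sum.elim a b '' (U' : Set (ι ⊕ ι)) =
        insert y ((Sum.elim a b '' (U : Set (ι ⊕ ι))) \ {x}) := by
  obtain ⟨-, -, L, z, hz, z', hz', hne, rfl, rfl⟩ := h
  have hz0 := Finset.mem_compl.1 hz
  have hz0' := Finset.mem_compl.1 hz'
  have h1 : ∀ w, w ∉ L → Sum.elim a b w ∉ Sum.elim a b '' (L : Set (ι ⊕ ι)) := by
    rintro w hw ⟨w', hw', h2⟩
    rw [S.elim_inj h2] at hw'
    exact hw hw'
  refine ⟨Sum.elim a b z, ⟨z, Finset.mem_coe.2 (Finset.mem_insert_self _ _), rfl⟩,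
    Sum.elim a b z', ?_, ?_⟩
  · rintro ⟨w, hw, h2⟩
    rw [S.elim_inj h2] at hw
    rcases Finset.mem_insert.1 (Finset.mem_coe.1 hw) with h3 | h3
    · exact hne h3.symm
    · exact hz0' h3
  · rw [Finset.coe_insert, Finset.coe_insert, Set.image_insert_eq, Set.image_insert_eq,
      Set.insert_sdiff_of_mem _ (Set.mem_singleton _),
      Set.sdiff_singleton_eq_self (h1 z hz0)]

theorem walk_img (S : Setting M v A B ι a b N) {lam : K →+ ℝ} {U U' : Finset (ι ⊕ ι)} {n : ℕ}
    (hU : fn N lam U ≠ 0) (h : Pt (fn N lam) n U U') : ∃ J : ℕ → Set α,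
      Walk M (Sum.elim a b '' (U : Set (ι ⊕ ι))) (Sum.elim a b '' (U' : Set (ι ⊕ ι))) n J := by
  induction n generalizing U' with
  | zero =>
    have h1 : U = U' := h
    subst h1
    exact ⟨fun _ => Sum.elim a b '' (U : Set (ι ⊕ ι)), rfl, rfl, fun t _ => S.good_img hU,
      fun t ht => by omega⟩
  | succ n ih =>
    obtain ⟨V, h1, h2⟩ := h
    obtain ⟨J, hJ⟩ := ih h1
    exact ⟨_, hJ.snoc (S.good_img h2.2.1) (S.exch_img h2)⟩

/-- the closed walk of quadratic length -/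
theorem quadratic [CharZero K] (S : Setting M v A B ι a b N) :
    ∃ (A' B' : Set α) (n : ℕ) (J : ℕ → Set α), Disjoint A' B' ∧ A' ∪ B' = M.E ∧
      n ≤ 2 * Fintype.card ι * (Fintype.card ι + 2) ∧ Walk M A' B' n J := by
  rcases Nat.eq_zero_or_pos (Fintype.card ι) with h0 | h0
  · have hι : IsEmpty ι := Fintype.card_eq_zero_iff.1 h0
    have hA : A = ∅ := by rw [← S.ra]; exact Set.range_eq_empty _
    have hB : B = ∅ := by rw [← S.rb]; exact Set.range_eq_empty _
    have hE : M.E = ∅ := by rw [← S.hE, hA, hB, Set.union_empty]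
    refine ⟨∅, ∅, 0, fun _ => ∅, disjoint_bot_left, by rw [hE, Set.union_empty], Nat.zero_le _,
      rfl, rfl, fun t _ => ⟨?_, ?_⟩, fun t ht => by omega⟩
    · rw [← hA]
      exact S.hA
    · rw [hE, Set.empty_sdiff, ← hA]
      exact S.hA
  obtain ⟨r, hr⟩ : ∃ r, Fintype.card ι = r + 1 := ⟨Fintype.card ι - 1, by omega⟩
  obtain ⟨lam, hlam⟩ := exists_lam S.det_ne
  have hE : Fintype.card (ι ⊕ ι) = 2 * (r + 1) := by
    rw [Fintype.card_sum, hr]
    ring
  -- the start
  obtain ⟨U₀, hU₀⟩ : ∃ U₀ : Finset (ι ⊕ ι), fn N lam U₀ ≠ 0 := by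
    refine ⟨(Finset.univ : Finset ι).disjSum ∅, ?_⟩
    unfold fn
    rw [Finset.toLeft_disjSum, Finset.toRight_disjSum, Finset.compl_univ, hh_empty]
    simpa using hlam
  obtain ⟨U, -, hU⟩ := Finset.exists_max_image (Finset.univ : Finset (Finset (ι ⊕ ι)))
    (fun U => |fn N lam U|) ⟨∅, Finset.mem_univ _⟩
  have hU0 : fn N lam U ≠ 0 := by
    intro h
    have h1 := hU U₀ (Finset.mem_univ _)
    rw [h, abs_zero] at h1
    exact hU₀ (abs_nonpos_iff.1 h1)
  obtain ⟨n, hn, hP⟩ := main_path hE (f := fn N lam) (fun V hV => fn_level N lam (by rwa [hr]))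
    (fn_dn N lam) hU0 (fun V => hU V (Finset.mem_univ _))
  obtain ⟨J, hJ⟩ := S.walk_img hU0 hP
  refine ⟨_, _, n, J, ?_, ?_, ?_, hJ⟩
  · rw [Set.disjoint_image_iff S.elim_inj, Finset.disjoint_coe]
    exact disjoint_compl_right
  · rw [← Set.image_union, ← Finset.coe_union, Finset.union_compl, Finset.coe_univ,
      Set.image_univ, Set.Sum.elim_range, S.ra, S.rb]
    exact S.hE
  · rw [hr]
    have : 2 * ((r + 1) * (r + 3)) = 2 * (r + 1) * (r + 1 + 2) := by ring
    omega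

end Setting

end Pool.Agent.Helper36.Swap
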