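import Pool.Agent.Helper36.Swap.Bool

/-!
# The spectral inequality

A function on the sets of size `r` in a set with `2 r` elements whose support contains no set
together with its complement satisfies `‖g‖² ≤ ‖D g‖²`.
-/

set_option autoImplicit false

namespace Pool.Agent.Helper36.Swap

open Finset

variable {E : Type*} [Fintype E] [DecidableEq E]

/-- the restriction to the sets of size `k` -/
def cutk (k : ℕ) (G : Finset E → ℝ) (S : Finset E) : ℝ := if S.card = k then G S else 0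

/-- the up operator on level `k` as a linear map -/
noncomputable def upL (E : Type*) [Fintype E] [DecidableEq E] (k : ℕ) :
    EuclideanSpace ℝ (Finset E) →ₗ[ℝ] EuclideanSpace ℝ (Finset E) where
  toFun G := WithLp.toLp 2 (up (cutk k G.ofLp))
  map_add' G H := by
    ext S
    simp only [up, cutk, PiLp.add_apply]
    rw [← Finset.sum_add_distrib]
    refine Finset.sum_congr rfl fun w _ => ?_
    split_ifs
    · rfl
    · rw [add_zero]
  map_smul' c G := by
    ext S
    simp only [up, cutk, PiLp.smul_apply, RingHom.id_apply, smul_eq_mul]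
    rw [Finset.mul_sum]
    refine Finset.sum_congr rfl fun w _ => ?_
    split_ifs
    · rfl
    · rw [mul_zero]

/-- orthogonal decomposition with respect to the image of the up operator -/
theorem decomp (k : ℕ) (H : Finset E → ℝ) :
    ∃ G F : Finset E → ℝ, (∀ S, H S = up (cutk k G) S + F S) ∧
      ∀ K : Finset E, K.card = k → dn F K = 0 := by
  obtain ⟨y, hy, z, hz, hyz⟩ := (LinearMap.range (upL E k)).exists_add_mem_mem_orthogonal
    (WithLp.toLp 2 H)
  obtain ⟨G, rfl⟩ := hy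
  refine ⟨G.ofLp, z.ofLp, fun S => ?_, ?_⟩
  · have h1 := congrArg (fun v : EuclideanSpace ℝ (Finset E) => v.ofLp S) hyz
    simpa [upL] using h1
  · have h1 : ∀ G' : Finset E → ℝ, ∑ K, cutk k G' K * dn z.ofLp K = 0 := by
      intro G'
      rw [← adj]
      have h2 := (Submodule.mem_orthogonal _ z).1 hz (upL E k (WithLp.toLp 2 G')) ⟨_, rfl⟩
      rw [PiLp.inner_apply] at h2
      rw [← h2]
      refine Finset.sum_congr rfl fun S _ => ?_
      simp [upL, mul_comm]
    have h2 := h1 (dn z.ofLp)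
    intro K hK
    have h3 : ∀ K ∈ (Finset.univ : Finset (Finset E)),
        0 ≤ cutk k (dn z.ofLp) K * dn z.ofLp K := by
      intro K _
      unfold cutk
      split_ifs
      · exact mul_self_nonneg _
      · rw [zero_mul]
    have h4 := (Finset.sum_eq_zero_iff_of_nonneg h3).1 h2 K (Finset.mem_univ K)
    unfold cutk at h4
    rw [if_pos hK] at h4
    exact mul_self_eq_zero.1 h4

theorem dn_eq_zero_of_level {r : ℕ} {F : Finset E → ℝ} (hF : ∀ S, S.card ≠ r + 1 → F S = 0)
    {K : Finset E} (hK : K.card ≠ r) : dn F K = 0 := by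
  unfold dn
  refine Finset.sum_eq_zero fun z hz => hF _ ?_
  rw [Finset.card_insert_of_notMem (Finset.mem_compl.1 hz)]
  omega

omit [Fintype E] in
theorem up_cutk_eq_zero {r : ℕ} {G : Finset E → ℝ} {S : Finset E} (hS : S.card ≠ r + 1) :
    up (cutk r G) S = 0 := by
  unfold up
  refine Finset.sum_eq_zero fun w hw => ?_
  unfold cutk
  rw [if_neg]
  rw [Finset.card_erase_of_mem hw]
  have := Finset.card_pos.2 ⟨w, hw⟩
  omega

theorem sum_compl (φ : Finset E → ℝ) : ∑ S : Finset E, φ Sᶜ = ∑ S : Finset E, φ S :=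
  Fintype.sum_equiv (Equiv.mk (fun S : Finset E => Sᶜ) (fun S => Sᶜ) compl_compl compl_compl) _ _
    fun _ => rfl

/-- complement exchanges the down and the up operator -/
theorem dn_compl (g : Finset E → ℝ) (K : Finset E) : dn (fun S => g Sᶜ) K = up g Kᶜ := by
  unfold dn up
  refine Finset.sum_congr rfl fun z _ => ?_
  show g (insert z K)ᶜ = g (Kᶜ.erase z)
  rw [Finset.compl_insert]

theorem norm_dn_compl {r : ℕ} (hE : Fintype.card E = 2 * r) {g : Finset E → ℝ}
    (hg : ∀ S, S.card ≠ r → g S = 0) :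
    ∑ K, dn (fun S => g Sᶜ) K ^ 2 = ∑ K, dn g K ^ 2 := by
  have h1 : ∑ K : Finset E, dn (fun S => g Sᶜ) K ^ 2 = ∑ K : Finset E, up g K ^ 2 := by
    rw [← sum_compl]
    refine Finset.sum_congr rfl fun K _ => ?_
    rw [dn_compl, compl_compl]
  rw [h1, norm_up]
  have h2 : ∑ S : Finset E, ((Fintype.card E : ℝ) - 2 * S.card) * g S ^ 2 = 0 := by
    refine Finset.sum_eq_zero fun S _ => ?_
    by_cases h : S.card = r
    · rw [hE, h]
      push_cast
      ring
    · rw [hg S h]
      ring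
  rw [h2, add_zero]

/-- the spectral inequality -/
theorem half_ineq {r : ℕ} (hE : Fintype.card E = 2 * (r + 1)) {g : Finset E → ℝ}
    (hg : ∀ S, S.card ≠ r + 1 → g S = 0) (hd : ∀ S, g S * g Sᶜ = 0) :
    ∑ S, g S ^ 2 ≤ ∑ K, dn g K ^ 2 := by
  obtain ⟨ε, hε⟩ : ∃ ε : ℝ, ε = (-1) ^ (r + 1) := ⟨_, rfl⟩
  have hε2 : ε * ε = 1 := by
    rw [hε, ← mul_pow]
    norm_num
  obtain ⟨H, hH⟩ : ∃ H : Finset E → ℝ, ∀ S, H S = g S - ε * g Sᶜ := ⟨_, fun S => rfl⟩
  have hHl : ∀ S, S.card ≠ r + 1 → H S = 0 := by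
    intro S hS
    rw [hH, hg S hS, hg Sᶜ, mul_zero, sub_zero]
    rw [Finset.card_compl, hE]
    have := Finset.card_le_univ S
    omega
  obtain ⟨G, F, hGF, hF⟩ := decomp r H
  have hFl : ∀ S, S.card ≠ r + 1 → F S = 0 := by
    intro S hS
    have h1 := hGF S
    rw [hHl S hS, up_cutk_eq_zero hS, zero_add] at h1
    exact h1.symm
  have hFD : ∀ K, dn F K = 0 := by
    intro K
    by_cases h1 : K.card = r
    · exact hF K h1
    · exact dn_eq_zero_of_level hFl h1
  have hFs : ∀ S, F Sᶜ = ε * F S := by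
    intro S
    by_cases h1 : S.card = r + 1
    · rw [hε]
      exact ker_symm hE hFl hFD h1
    · rw [hFl S h1, hFl Sᶜ, mul_zero]
      rw [Finset.card_compl, hE]
      have := Finset.card_le_univ S
      omega
  have h1 : ∑ S, H S * F S = 0 := by
    have e1 : ∑ S : Finset E, g Sᶜ * F S = ε * ∑ S, g S * F S := by
      rw [← sum_compl, Finset.mul_sum]
      refine Finset.sum_congr rfl fun S _ => ?_
      rw [compl_compl, hFs]
      ring
    have e2 : ∑ S, H S * F S = ∑ S, g S * F S - ε * ∑ S : Finset E, g Sᶜ * F S := by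
      rw [Finset.mul_sum, ← Finset.sum_sub_distrib]
      refine Finset.sum_congr rfl fun S _ => ?_
      rw [hH]
      ring
    rw [e2, e1, ← mul_assoc, hε2]
    ring
  have h2 : ∑ S, up (cutk r G) S * F S = 0 := by
    rw [adj]
    refine Finset.sum_eq_zero fun K _ => ?_
    rw [hFD, mul_zero]
  have h3 : ∑ S, F S ^ 2 = 0 := by
    have e1 : ∑ S, H S * F S = ∑ S, up (cutk r G) S * F S + ∑ S, F S ^ 2 := by
      rw [← Finset.sum_add_distrib]
      refine Finset.sum_congr rfl fun S _ => ?_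
      rw [hGF]
      ring
    rw [h1, h2, zero_add] at e1
    exact e1.symm
  have h4 : ∀ S, F S = 0 := by
    intro S
    have e1 := (Finset.sum_eq_zero_iff_of_nonneg fun S _ => sq_nonneg (F S)).1 h3 S
      (Finset.mem_univ S)
    exact pow_eq_zero_iff (two_ne_zero) |>.1 e1
  have h5 : ∀ S, H S = up (cutk r G) S := fun S => by rw [hGF, h4, add_zero]
  -- the norms
  have n1 : ∑ S, H S ^ 2 = ∑ K, cutk r G K * dn H K := by
    rw [← adj]
    refine Finset.sum_congr rfl fun S _ => ?_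
    rw [← h5]
    ring
  have n2 : 2 * ∑ K, cutk r G K ^ 2 ≤ ∑ S, H S ^ 2 := by
    have e1 := norm_up (cutk r G)
    have e2 : ∑ S, up (cutk r G) S ^ 2 = ∑ S, H S ^ 2 :=
      Finset.sum_congr rfl fun S _ => by rw [h5]
    have e3 : ∑ S : Finset E, ((Fintype.card E : ℝ) - 2 * S.card) * cutk r G S ^ 2 =
        2 * ∑ K, cutk r G K ^ 2 := by
      rw [Finset.mul_sum]
      refine Finset.sum_congr rfl fun S _ => ?_
      by_cases h : S.card = r
      · rw [hE, h]
        push_cast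
        ring
      · unfold cutk
        rw [if_neg h]
        ring
    have e4 : 0 ≤ ∑ K, dn (cutk r G) K ^ 2 := Finset.sum_nonneg fun K _ => sq_nonneg _
    linarith
  have n3 : (∑ S, H S ^ 2) ^ 2 ≤ (∑ K, cutk r G K ^ 2) * ∑ K, dn H K ^ 2 := by
    rw [n1]
    exact Finset.sum_mul_sq_le_sq_mul_sq _ _ _
  have n4 : 0 ≤ ∑ S, H S ^ 2 := Finset.sum_nonneg fun K _ => sq_nonneg _
  have n5 : 0 ≤ ∑ K, dn H K ^ 2 := Finset.sum_nonneg fun K _ => sq_nonneg _
  have n6 : 2 * ∑ S, H S ^ 2 ≤ ∑ K, dn H K ^ 2 := by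
    rcases n4.eq_or_lt with h | h
    · rw [← h]
      linarith
    · have e1 : (∑ S, H S ^ 2) * (2 * ∑ S, H S ^ 2) ≤
          (∑ S, H S ^ 2) * ∑ K, dn H K ^ 2 := by
        have e2 := mul_le_mul_of_nonneg_right n2 n5
        nlinarith
      exact le_of_mul_le_mul_left e1 h
  have n7 : ∑ S, H S ^ 2 = 2 * ∑ S, g S ^ 2 := by
    have e1 : ∑ S : Finset E, g Sᶜ ^ 2 = ∑ S, g S ^ 2 := sum_compl fun S => g S ^ 2
    have e2 : ∑ S, H S ^ 2 = ∑ S, g S ^ 2 + ∑ S : Finset E, g Sᶜ ^ 2 := by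
      rw [← Finset.sum_add_distrib]
      refine Finset.sum_congr rfl fun S _ => ?_
      rw [hH]
      have e3 := hd S
      have e4 : (g S - ε * g Sᶜ) ^ 2 = g S ^ 2 + (ε * ε) * g Sᶜ ^ 2 - 2 * ε * (g S * g Sᶜ) := by
        ring
      rw [e4, e3, hε2]
      ring
    rw [e2, e1]
    ring
  have n8 : ∑ K, dn H K ^ 2 ≤ 2 * ∑ K, dn g K ^ 2 + 2 * ∑ K, dn (fun S => g Sᶜ) K ^ 2 := by
    rw [Finset.mul_sum, Finset.mul_sum, ← Finset.sum_add_distrib]
    refine Finset.sum_le_sum fun K _ => ?_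
    have e1 : dn H K = dn g K - ε * dn (fun S => g Sᶜ) K := by
      unfold dn
      rw [Finset.mul_sum, ← Finset.sum_sub_distrib]
      exact Finset.sum_congr rfl fun z _ => hH _
    have e2 : (dn g K - ε * dn (fun S => g Sᶜ) K) ^ 2 + (dn g K + ε * dn (fun S => g Sᶜ) K) ^ 2 =
        2 * dn g K ^ 2 + (ε * ε) * (2 * dn (fun S => g Sᶜ) K ^ 2) := by ring
    rw [hε2, one_mul] at e2
    rw [e1, ← e2]
    exact le_add_of_nonneg_right (sq_nonneg _)
  rw [norm_dn_compl hE hg] at n8
  linarith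

end Pool.Agent.Helper36.Swap
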